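import Pool.Agent.MPdfec22.Defs

open Finset Polynomial

namespace Pool.Agent.MPdfec22

/-- The alternating sum of `F` over `S`, the largest element having sign `+`. -/
noncomputable def alt (S : Finset ℕ) (F : ℕ → ℝ) : ℝ := ∑ a ∈ S, (-1 : ℝ) ^ above S a * F a

theorem above_insert_self {S : Finset ℕ} {n : ℕ} (h : ∀ b ∈ S, b < n) :
    above (insert n S) n = 0 := by
  unfold above
  rw [Finset.card_eq_zero, Finset.filter_eq_empty_iff]
  intro b hb
  rcases Finset.mem_insert.1 hb with rfl | hb
  · simp
  · have := h b hb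
    omega

theorem above_insert_of_lt {S : Finset ℕ} {n a : ℕ} (h : ∀ b ∈ S, b < n) (ha : a < n) :
    above (insert n S) a = above S a + 1 := by
  unfold above
  rw [Finset.filter_insert, if_pos ha, Finset.card_insert_of_notMem]
  intro hn
  have := h n (Finset.mem_filter.1 hn).1
  omega

theorem above_eq_zero {S : Finset ℕ} {a : ℕ} (h : ∀ b ∈ S, b ≤ a) : above S a = 0 := by
  unfold above
  rw [Finset.card_eq_zero, Finset.filter_eq_empty_iff]
  intro b hb
  have := h b hb
  omega

theorem alt_insert {S : Finset ℕ} {n : ℕ} (h : ∀ b ∈ S, b < n) (F : ℕ → ℝ) :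
    alt (insert n S) F = F n - alt S F := by
  have hn : n ∉ S := fun hn => lt_irrefl _ (h n hn)
  unfold alt
  rw [Finset.sum_insert hn, above_insert_self h, pow_zero, one_mul, sub_eq_add_neg,
    ← Finset.sum_neg_distrib]
  congr 1
  apply Finset.sum_congr rfl
  intro a ha
  rw [above_insert_of_lt h (h a ha), pow_succ]
  ring

theorem alt_empty (F : ℕ → ℝ) : alt ∅ F = 0 := by simp [alt]

theorem alt_one (S : Finset ℕ) : (-1 : ℝ) ^ S.card + 2 * alt S (fun _ => 1) = 1 := by
  induction S using Finset.induction_on_max with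
  | empty => simp [alt]
  | insert n S h ih =>
    have hn : n ∉ S := fun hn => lt_irrefl _ (h n hn)
    rw [alt_insert h, Finset.card_insert_of_notMem hn, pow_succ]
    linarith

theorem alt_bounds (F : ℕ → ℝ) (S : Finset ℕ) :
    (∀ a ∈ S, 0 < F a) → (∀ a ∈ S, ∀ b ∈ S, a < b → F a < F b) →
      0 ≤ alt S F ∧ (∀ b : ℝ, 0 < b → (∀ a ∈ S, F a < b) → alt S F < b) ∧
        (∀ b : ℝ, 0 ≤ b → (∀ a ∈ S, F a ≤ b) → alt S F ≤ b) ∧
        (S.Nonempty → 0 < alt S F) := by
  induction S using Finset.induction_on_max with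
  | empty =>
    intro _ _
    refine ⟨by simp [alt], ?_, ?_, ?_⟩
    · intro b hb _
      simpa [alt] using hb
    · intro b hb _
      simpa [alt] using hb
    · rintro ⟨x, hx⟩
      simp at hx
  | insert n S h ih =>
    intro hpos hmono
    have ih' := ih (fun a ha => hpos a (Finset.mem_insert_of_mem ha))
      (fun a ha b hb hab => hmono a (Finset.mem_insert_of_mem ha) b (Finset.mem_insert_of_mem hb) hab)
    obtain ⟨h1, h2, h3, h4⟩ := ih'
    have hFn : 0 < F n := hpos n (Finset.mem_insert_self n S)
    have hlt : alt S F < F n := h2 (F n) hFn (fun a ha =>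
      hmono a (Finset.mem_insert_of_mem ha) n (Finset.mem_insert_self n S) (h a ha))
    rw [alt_insert h]
    refine ⟨by linarith, ?_, ?_, fun _ => by linarith⟩
    · intro b hb hb'
      have := hb' n (Finset.mem_insert_self n S)
      linarith
    · intro b hb hb'
      have := hb' n (Finset.mem_insert_self n S)
      linarith

/-- Telescoping form of the alternating sum. -/
theorem alt_telescope (F : ℕ → ℝ) (hF : F 0 = 0) (S : Finset ℕ) :
    ∀ N : ℕ, (∀ a ∈ S, a ≤ N) →
      alt S F = ∑ j ∈ (range N).filter (fun j => Odd (above S j)), (F (j + 1) - F j) := by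
  induction S using Finset.induction_on_max with
  | empty =>
    intro N _
    simp [alt, above]
  | insert n S h ih =>
    intro N hN
    have hnN : n ≤ N := hN n (Finset.mem_insert_self n S)
    rw [alt_insert h, ih n (fun a ha => (h a ha).le)]
    have h1 : (range N).filter (fun j => Odd (above (insert n S) j)) =
        (range n).filter (fun j => ¬ Odd (above S j)) := by
      ext j
      simp only [Finset.mem_filter, Finset.mem_range]
      constructor
      · rintro ⟨hj, hodd⟩
        by_cases hjn : j < n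
        · refine ⟨hjn, ?_⟩
          rw [above_insert_of_lt h hjn] at hodd
          rw [Nat.not_odd_iff_even]
          rcases Nat.even_or_odd (above S j) with he | ho
          · exact he
          · exact absurd (ho.add_odd odd_one) (by rw [Nat.not_even_iff_odd]; exact hodd)
        · rw [above_eq_zero] at hodd
          · simp at hodd
          · intro b hb
            rcases Finset.mem_insert.1 hb with rfl | hb
            · omega
            · have := h b hb
              omega
      · rintro ⟨hj, hodd⟩
        refine ⟨by omega, ?_⟩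
        rw [above_insert_of_lt h hj]
        rw [Nat.not_odd_iff_even] at hodd
        exact hodd.add_odd odd_one
    rw [h1]
    have h2 := Finset.sum_filter_add_sum_filter_not (range n) (fun j => Odd (above S j))
      (fun j => F (j + 1) - F j)
    rw [Finset.sum_range_sub F n, hF] at h2
    linarith

/-! ### Numerical bounds -/

theorem cos_quarter : (0.968546 : ℝ) ≤ Real.cos (1 / 4) ∧ Real.cos (1 / 4) ≤ 0.968954 := by
  have h := Real.cos_bound (x := 1 / 4) (by rw [abs_of_pos] <;> norm_num)
  rw [abs_le] at h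
  have e : |(1 / 4 : ℝ)| = 1 / 4 := by rw [abs_of_pos]; norm_num
  rw [e] at h
  constructor <;> nlinarith [h.1, h.2]

theorem cos_two_bounds : (-0.427 : ℝ) ≤ Real.cos 2 ∧ Real.cos 2 ≤ -0.4149 := by
  obtain ⟨h1, h2⟩ := cos_quarter
  have e1 : Real.cos (1 / 2) = 2 * Real.cos (1 / 4) ^ 2 - 1 := by
    rw [← Real.cos_two_mul]; norm_num
  have e2 : Real.cos 1 = 2 * Real.cos (1 / 2) ^ 2 - 1 := by
    rw [← Real.cos_two_mul]; norm_num
  have e3 : Real.cos 2 = 2 * Real.cos 1 ^ 2 - 1 := by
    rw [← Real.cos_two_mul]; norm_num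
  have a1 : (0.87616 : ℝ) ≤ Real.cos (1 / 2) := by rw [e1]; nlinarith
  have a2 : Real.cos (1 / 2) ≤ 0.877744 := by rw [e1]; nlinarith
  have b1 : (0.5353 : ℝ) ≤ Real.cos 1 := by rw [e2]; nlinarith
  have b2 : Real.cos 1 ≤ 0.54087 := by rw [e2]; nlinarith
  constructor
  · rw [e3]; nlinarith
  · rw [e3]; nlinarith

theorem sin_two_lower : (0.9 : ℝ) ≤ Real.sin 2 := by
  have h := Real.sin_sq_add_cos_sq 2
  obtain ⟨h1, h2⟩ := cos_two_bounds
  have h3 : 0 < Real.sin 2 := Real.sin_pos_of_pos_of_lt_pi (by norm_num) (by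
    have := Real.pi_gt_three; linarith)
  nlinarith

theorem strictMonoOn_mul_sin : StrictMonoOn (fun x : ℝ => x * Real.sin x) (Set.Icc 0 2) := by
  apply strictMonoOn_of_deriv_pos (convex_Icc 0 2)
  · fun_prop
  · intro x hx
    rw [interior_Icc] at hx
    obtain ⟨hx0, hx2⟩ := hx
    have hd : HasDerivAt (fun x : ℝ => x * Real.sin x) (1 * Real.sin x + x * Real.cos x) x :=
      (hasDerivAt_id x).mul (Real.hasDerivAt_sin x)
    rw [hd.deriv]
    have hpi := Real.pi_gt_three
    have hs : 0 < Real.sin x := Real.sin_pos_of_pos_of_lt_pi hx0 (by linarith)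
    rcases le_or_gt x (Real.pi / 2) with hxp | hxp
    · have hc : 0 ≤ Real.cos x := Real.cos_nonneg_of_mem_Icc ⟨by linarith, hxp⟩
      have := mul_nonneg hx0.le hc
      linarith
    · have hc : Real.cos 2 ≤ Real.cos x :=
        Real.cos_le_cos_of_nonneg_of_le_pi hx0.le (by linarith) hx2.le
      have hc0 : Real.cos x < 0 := Real.cos_neg_of_pi_div_two_lt_of_lt hxp (by linarith)
      have hsin : Real.sin 2 ≤ Real.sin x := by
        rw [← Real.sin_pi_sub 2, ← Real.sin_pi_sub x]
        apply Real.sin_le_sin_of_le_of_le_pi_div_two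
        · linarith
        · linarith
        · linarith
      have := sin_two_lower
      have h2 := cos_two_bounds.1
      nlinarith

/-! ### The trigonometric polynomial -/

/-- `Δ(exp(it))`. -/
noncomputable def f (S : Finset ℕ) (t : ℝ) : ℝ := 1 - 2 * alt S (fun a => 1 - Real.cos (a * t))

theorem f_eq (S : Finset ℕ) (t : ℝ) :
    f S t = (-1 : ℝ) ^ S.card + ∑ a ∈ S, (-1 : ℝ) ^ above S a * (2 * Real.cos (a * t)) := by
  have h := alt_one S
  unfold f
  have h2 : alt S (fun a => 1 - Real.cos (a * t)) =
      alt S (fun _ => 1) - alt S (fun a => Real.cos (a * t)) := by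
    unfold alt
    rw [← Finset.sum_sub_distrib]
    apply Finset.sum_congr rfl
    intro a _
    ring
  have h3 : ∑ a ∈ S, (-1 : ℝ) ^ above S a * (2 * Real.cos (a * t)) =
      2 * alt S (fun a => Real.cos (a * t)) := by
    unfold alt
    rw [Finset.mul_sum]
    apply Finset.sum_congr rfl
    intro a _
    ring
  rw [h2, h3]
  linarith

theorem hasDerivAt_f (S : Finset ℕ) (t : ℝ) :
    HasDerivAt (f S) (-2 * alt S (fun a => a * Real.sin (a * t))) t := by
  have h : HasDerivAt (fun t => alt S (fun a => 1 - Real.cos (a * t)))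
      (alt S (fun a => a * Real.sin (a * t))) t := by
    unfold alt
    apply HasDerivAt.fun_sum
    intro a _
    apply HasDerivAt.const_mul
    have h1 : HasDerivAt (fun t : ℝ => (a : ℝ) * t) (a : ℝ) t := by
      simpa using (hasDerivAt_id t).const_mul (a : ℝ)
    exact (h1.cos.const_sub 1).congr_deriv (by ring)
  exact ((h.const_mul 2).const_sub 1).congr_deriv (by ring)

theorem eval_delta (S : Finset ℕ) (t : ℝ) :
    ((delta S).map (Int.castRingHom ℂ)).eval (Complex.exp (t * Complex.I)) =
      Complex.exp (((S.sup id : ℕ) * t : ℝ) * Complex.I) * (f S t : ℂ) := by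
  have hpow : ∀ m : ℕ, Complex.exp (t * Complex.I) ^ m = Complex.exp ((m * t : ℝ) * Complex.I) := by
    intro m
    rw [← Complex.exp_nat_mul]
    congr 1
    push_cast
    ring
  rw [f_eq]
  unfold delta
  simp only [Polynomial.map_add, Polynomial.map_mul, Polynomial.map_sum, Polynomial.map_pow,
    Polynomial.map_X, Polynomial.map_C, Polynomial.eval_add, Polynomial.eval_mul,
    Polynomial.eval_finsetSum, Polynomial.eval_pow, Polynomial.eval_X, Polynomial.eval_C]
  push_cast
  rw [mul_add, Finset.mul_sum]
  congr 1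
  · rw [hpow]
    push_cast
    simp only [map_pow, map_neg, map_one]
    ring
  · apply Finset.sum_congr rfl
    intro a ha
    have hle : a ≤ S.sup id := Finset.le_sup (f := id) ha
    have h1 : Complex.exp (t * Complex.I) ^ (S.sup id + a) =
        Complex.exp ((((S.sup id : ℕ) : ℝ) * t : ℝ) * Complex.I) *
          Complex.exp ((a * t : ℝ) * Complex.I) := by
      rw [hpow, ← Complex.exp_add]
      congr 1
      push_cast
      ring
    have h2 : Complex.exp (t * Complex.I) ^ (S.sup id - a) =
        Complex.exp ((((S.sup id : ℕ) : ℝ) * t : ℝ) * Complex.I) *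
          Complex.exp (-((a * t : ℝ) : ℂ) * Complex.I) := by
      rw [hpow, ← Complex.exp_add, Nat.cast_sub hle]
      congr 1
      push_cast
      ring
    rw [h1, h2]
    have h3 : Complex.exp ((a * t : ℝ) * Complex.I) + Complex.exp (-((a * t : ℝ) : ℂ) * Complex.I) =
        2 * Complex.cos ((a * t : ℝ) : ℂ) := by
      rw [Complex.cos]
      ring
    push_cast at h3 ⊢
    simp only [map_pow, map_neg, map_one]
    linear_combination ((-1) ^ above S a * Complex.exp ((S.sup id : ℕ) * t * Complex.I)) * h3

theorem simple_of_zero (S : Finset ℕ) (t : ℝ) (h0 : f S t = 0)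
    (h1 : alt S (fun a => a * Real.sin (a * t)) ≠ 0) : HasSimpleUnitRoot (delta S) := by
  set P := (delta S).map (Int.castRingHom ℂ) with hP
  refine ⟨Complex.exp (t * Complex.I), Complex.norm_exp_ofReal_mul_I t, ?_⟩
  have hroot : P.IsRoot (Complex.exp (t * Complex.I)) := by
    rw [Polynomial.IsRoot, hP, eval_delta, h0]
    simp
  have hd1 : HasDerivAt (fun s : ℝ => P.eval (Complex.exp (s * Complex.I)))
      ((derivative P).eval (Complex.exp (t * Complex.I)) *
        (Complex.exp (t * Complex.I) * Complex.I)) t := by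
    have e1 : HasDerivAt (fun z : ℂ => Complex.exp (z * Complex.I))
        (Complex.exp (t * Complex.I) * Complex.I) (t : ℂ) := by
      have := ((hasDerivAt_id (t : ℂ)).mul_const Complex.I).cexp
      simpa using this
    have e2 : HasDerivAt (fun z : ℂ => P.eval z) ((derivative P).eval (Complex.exp (t * Complex.I)))
        (Complex.exp (t * Complex.I)) := P.hasDerivAt _
    exact (e2.comp (t : ℂ) e1).comp_ofReal
  have hd2 : HasDerivAt (fun s : ℝ => Complex.exp (((S.sup id : ℕ) * s : ℝ) * Complex.I) *
      (f S s : ℂ))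
      (Complex.exp (((S.sup id : ℕ) * t : ℝ) * Complex.I) * Complex.I * (S.sup id : ℕ) * (f S t : ℂ)
        + Complex.exp (((S.sup id : ℕ) * t : ℝ) * Complex.I) *
          ((-2 * alt S (fun a => a * Real.sin (a * t)) : ℝ) : ℂ)) t := by
    have e1 : HasDerivAt (fun s : ℝ => Complex.exp (((S.sup id : ℕ) * s : ℝ) * Complex.I))
        (Complex.exp (((S.sup id : ℕ) * t : ℝ) * Complex.I) * Complex.I * (S.sup id : ℕ)) t := by
      have : HasDerivAt (fun z : ℂ => Complex.exp ((S.sup id : ℕ) * z * Complex.I))
        (Complex.exp ((S.sup id : ℕ) * t * Complex.I) * ((S.sup id : ℕ) * Complex.I)) (t : ℂ) := by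
        have h := (((hasDerivAt_id (t : ℂ)).const_mul ((S.sup id : ℕ) : ℂ)).mul_const
          Complex.I).cexp
        simpa using h
      have h2 := this.comp_ofReal
      convert h2 using 1
      · ext s
        push_cast
        rfl
      · push_cast
        ring
    exact e1.mul (hasDerivAt_f S t).ofReal_comp
  have hfun : (fun s : ℝ => P.eval (Complex.exp (s * Complex.I))) =
      (fun s : ℝ => Complex.exp (((S.sup id : ℕ) * s : ℝ) * Complex.I) * (f S s : ℂ)) := by
    ext s
    rw [hP, eval_delta]
  rw [hfun] at hd1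
  have huniq := hd1.unique hd2
  rw [h0] at huniq
  have hne : (derivative P).eval (Complex.exp (t * Complex.I)) ≠ 0 := by
    intro hz
    rw [hz] at huniq
    simp only [zero_mul, Complex.ofReal_zero, mul_zero, zero_add] at huniq
    have h5 := mul_eq_zero.1 huniq.symm
    rcases h5 with h5 | h5
    · exact Complex.exp_ne_zero _ h5
    · have h6 : (-2 * alt S (fun a => a * Real.sin (a * t)) : ℝ) = 0 := by exact_mod_cast h5
      apply h1
      linarith
  have hP0 : P ≠ 0 := by
    intro h
    apply hne
    rw [h]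
    simp
  have hpos : 0 < P.rootMultiplicity (Complex.exp (t * Complex.I)) :=
    (Polynomial.rootMultiplicity_pos hP0).2 hroot
  have hle : ¬ 1 < P.rootMultiplicity (Complex.exp (t * Complex.I)) := by
    intro h
    rw [Polynomial.one_lt_rootMultiplicity_iff_isRoot hP0] at h
    exact hne h.2
  change P.rootMultiplicity (Complex.exp (t * Complex.I)) = 1
  omega

/-- The basic criterion. -/
theorem simple_of_alt (S : Finset ℕ) (hS : S.Nonempty) (hpos : ∀ a ∈ S, 0 < a)
    (h : 1 / 2 < alt S (fun a => 1 - Real.cos (2 * a / (S.sup id : ℕ)))) :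
    HasSimpleUnitRoot (delta S) := by
  set n : ℕ := S.sup id with hn
  have hle : ∀ a ∈ S, a ≤ n := fun a ha => Finset.le_sup (f := id) ha
  have hn0 : 0 < n := by
    obtain ⟨a, ha⟩ := hS
    exact lt_of_lt_of_le (hpos a ha) (hle a ha)
  have hn0' : (0 : ℝ) < n := by exact_mod_cast hn0
  have hf0 : f S 0 = 1 := by
    unfold f alt
    simp
  have hf2 : f S (2 / n) < 0 := by
    unfold f
    have : alt S (fun a => 1 - Real.cos (a * (2 / n))) =
        alt S (fun a => 1 - Real.cos (2 * a / n)) := by
      unfold alt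
      apply Finset.sum_congr rfl
      intro a _
      beta_reduce
      rw [show (a : ℝ) * (2 / n) = 2 * a / n by ring]
    rw [this]
    linarith
  have hcont : ContinuousOn (f S) (Set.Icc 0 (2 / (n : ℝ))) := fun t _ =>
    (hasDerivAt_f S t).continuousAt.continuousWithinAt
  have h2n : (0 : ℝ) ≤ 2 / n := by positivity
  have hivt := intermediate_value_Icc' h2n hcont
  obtain ⟨t, ht, ht0⟩ := hivt ⟨hf2.le, by rw [hf0]; norm_num⟩
  have htpos : 0 < t := by
    rcases lt_or_eq_of_le ht.1 with h | h
    · exact h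
    · rw [← h, hf0] at ht0
      norm_num at ht0
  apply simple_of_zero S t ht0
  have key := (alt_bounds (fun a => (a : ℝ) * Real.sin (a * t)) S ?_ ?_).2.2.2 hS
  · exact key.ne'
  · intro a ha
    have ha0 : (0 : ℝ) < a := by exact_mod_cast hpos a ha
    have hat : 0 < (a : ℝ) * t := mul_pos ha0 htpos
    have hat2 : (a : ℝ) * t ≤ 2 := by
      have h1 : (a : ℝ) ≤ n := by exact_mod_cast hle a ha
      have h2 : (a : ℝ) * t ≤ n * (2 / n) := mul_le_mul h1 ht.2 htpos.le hn0'.le
      have h3 : (n : ℝ) * (2 / n) = 2 := by field_simp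
      linarith
    have hs : 0 < Real.sin (a * t) := Real.sin_pos_of_pos_of_lt_pi hat (by
      have := Real.pi_gt_three
      linarith)
    exact mul_pos ha0 hs
  · intro a ha b hb hab
    have ha0 : (0 : ℝ) < a := by exact_mod_cast hpos a ha
    have hab' : (a : ℝ) < b := by exact_mod_cast hab
    have hbt2 : (b : ℝ) * t ≤ 2 := by
      have h1 : (b : ℝ) ≤ n := by exact_mod_cast hle b hb
      have h2 : (b : ℝ) * t ≤ n * (2 / n) := mul_le_mul h1 ht.2 htpos.le hn0'.le
      have h3 : (n : ℝ) * (2 / n) = 2 := by field_simp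
      linarith
    have hat : 0 < (a : ℝ) * t := mul_pos ha0 htpos
    have hlt : (a : ℝ) * t < b * t := mul_lt_mul_of_pos_right hab' htpos
    have hm := strictMonoOn_mul_sin (a := (a : ℝ) * t) (b := (b : ℝ) * t)
      ⟨hat.le, by linarith⟩ ⟨by linarith, hbt2⟩ hlt
    simp only at hm
    have e : ∀ c : ℝ, c * t * Real.sin (c * t) = t * (c * Real.sin (c * t)) := by
      intro c
      ring
    rw [e, e] at hm
    exact lt_of_mul_lt_mul_left hm htpos.le

end Pool.Agent.MPdfec22
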