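import Mathlib
open Polynomial
namespace Pool.Agent.MPdfec22

/-- A real polynomial which changes its sign has a root of odd multiplicity in between.
(Strong induction on the degree: IVT gives a root `x`; if its multiplicity `e` is even, write
`q = (X - x) ^ e * q1`, `q1` has the same signs at `a`, `b` and smaller degree, `q1 (x) ≠ 0`.) -/
theorem odd_root (q : ℝ[X]) {a b : ℝ} (hab : a < b) (ha : q.eval a < 0) (hb : 0 < q.eval b) :
    ∃ x, a < x ∧ x < b ∧ Odd (q.rootMultiplicity x) := by
  obtain ⟨n, hn⟩ : ∃ n, n = q.natDegree := ⟨_, rfl⟩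
  induction n using Nat.strong_induction_on generalizing q with
  | _ n ih =>
    have hq : q ≠ 0 := by
      rintro rfl
      simp at hb
    obtain ⟨x, ⟨hx1, hx2⟩, hx⟩ := intermediate_value_Ioo hab.le (q.continuousOn (s := Set.Icc a b))
      ⟨ha, hb⟩
    have hroot : q.IsRoot x := hx
    have he : 0 < q.rootMultiplicity x := (rootMultiplicity_pos hq).2 hroot
    rcases Nat.even_or_odd (q.rootMultiplicity x) with hev | hodd
    swap
    · exact ⟨x, hx1, hx2, hodd⟩
    obtain ⟨q1, h1, h2⟩ := exists_eq_pow_rootMultiplicity_mul_and_not_dvd q hq x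
    obtain ⟨e, hee⟩ : ∃ e, e = q.rootMultiplicity x := ⟨_, rfl⟩
    rw [← hee] at h1 he hev
    have hq1 : q1 ≠ 0 := by
      rintro rfl
      exact h2 (dvd_zero _)
    have hev1 : ∀ t : ℝ, q.eval t = (t - x) ^ e * q1.eval t := by
      intro t
      conv_lhs => rw [h1]
      simp
    have hpos : ∀ t : ℝ, t ≠ x → 0 < (t - x) ^ e := fun t ht => hev.pow_pos (sub_ne_zero.2 ht)
    have ha1 : q1.eval a < 0 := by
      rw [hev1] at ha
      by_contra hcon
      push Not at hcon
      exact absurd ha (not_lt.2 (mul_nonneg (hpos a hx1.ne).le hcon))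
    have hb1 : 0 < q1.eval b := by
      rw [hev1] at hb
      exact (mul_pos_iff_of_pos_left (hpos b hx2.ne')).1 hb
    have hdeg : q1.natDegree < n := by
      rw [hn]
      conv_rhs => rw [h1]
      rw [natDegree_mul (pow_ne_zero _ (X_sub_C_ne_zero x)) hq1, natDegree_pow, natDegree_X_sub_C]
      omega
    obtain ⟨y, hy1, hy2, hy⟩ := ih q1.natDegree hdeg q1 ha1 hb1 rfl
    refine ⟨y, hy1, hy2, ?_⟩
    have hyx : y ≠ x := by
      rintro rfl
      have h3 : q1.rootMultiplicity y = 0 := rootMultiplicity_eq_zero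
        (fun h => h2 (dvd_iff_isRoot.2 h))
      rw [h3] at hy
      exact absurd hy (by decide)
    have h4 : q.rootMultiplicity y = q1.rootMultiplicity y := by
      conv_lhs => rw [h1]
      rw [rootMultiplicity_mul (mul_ne_zero (pow_ne_zero _ (X_sub_C_ne_zero x)) hq1),
        rootMultiplicity_eq_zero (p := (X - C x) ^ e) (x := y), zero_add]
      rw [IsRoot.def, eval_pow, eval_sub, eval_X, eval_C]
      exact pow_ne_zero _ (sub_ne_zero.2 hyx)
    rw [h4]
    exact hy

end Pool.Agent.MPdfec22
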