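import Pool.Agent.MPdfec22.Basic

/-!
# Admissible polynomials: negative values on the unit circle

The average of `Δ(exp(i t))` over the points `t` with `exp(i n t) = -1` is `(-1)^k - 2 < 0`.
-/

open Finset Polynomial

namespace Pool.Agent.MPdfec22

theorem cf_sum_zero {n a : ℕ} (ha : 0 < a) (han : a < n) :
    ∑ j ∈ range n, Real.cos (a * ((2 * j + 1) * Real.pi / n)) = 0 := by
  have hn : n ≠ 0 := by omega
  have hn' : (n : ℂ) ≠ 0 := by exact_mod_cast hn
  have hp := Complex.isPrimitiveRoot_exp n hn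
  set w : ℂ := Complex.exp (2 * Real.pi * Complex.I / n) ^ a with hw
  have hw1 : w ≠ 1 := hp.pow_ne_one_of_pos_of_lt (by omega) han
  have hwn : w ^ n = 1 := by
    rw [hw, ← pow_mul, mul_comm a n, pow_mul, hp.pow_eq_one, one_pow]
  have hs : ∑ j ∈ range n, w ^ j = 0 := by
    rw [geom_sum_eq hw1, hwn, sub_self, zero_div]
  have e : ∀ j : ℕ, Real.cos (a * ((2 * j + 1) * Real.pi / n)) =
      (Complex.exp ((a * Real.pi / n : ℂ) * Complex.I) * w ^ j).re := by
    intro j
    rw [hw, ← Complex.exp_nat_mul, ← Complex.exp_nat_mul, ← Complex.exp_add]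
    have h1 : (a * Real.pi / n : ℂ) * Complex.I + j * (a * (2 * Real.pi * Complex.I / n)) =
        ((a * ((2 * j + 1) * Real.pi / n) : ℝ) : ℂ) * Complex.I := by
      push_cast
      field_simp
      ring
    rw [h1, Complex.exp_ofReal_mul_I_re]
  rw [Finset.sum_congr rfl fun j _ => e j, ← Complex.re_sum, ← Finset.mul_sum, hs, mul_zero]
  rfl

/-- `Δ` has negative values on the unit circle. -/
theorem cf_neg (S : Finset ℕ) (hS : S.Nonempty) (hpos : ∀ a ∈ S, 0 < a) :
    ∃ t : ℝ, f S t < 0 := by
  set n : ℕ := S.sup id with hn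
  have hle : ∀ a ∈ S, a ≤ n := fun a ha => Finset.le_sup (f := id) ha
  have hn0 : 0 < n := by
    obtain ⟨a, ha⟩ := hS
    exact lt_of_lt_of_le (hpos a ha) (hle a ha)
  have hnS : n ∈ S := by
    obtain ⟨x, hx, hx2⟩ := Finset.exists_mem_eq_sup S hS id
    rw [hn, hx2]
    exact hx
  have hnr : (0 : ℝ) < n := by exact_mod_cast hn0
  by_contra hcon
  push Not at hcon
  have h1 : 0 ≤ ∑ j ∈ range n, f S ((2 * j + 1) * Real.pi / n) :=
    Finset.sum_nonneg fun j _ => hcon _
  have h2 : ∑ j ∈ range n, f S ((2 * j + 1) * Real.pi / n) =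
      n * ((-1 : ℝ) ^ S.card - 2) := by
    have e : ∀ j : ℕ, f S ((2 * j + 1) * Real.pi / n) = (-1 : ℝ) ^ S.card +
        ∑ a ∈ S, (-1 : ℝ) ^ above S a * (2 * Real.cos (a * ((2 * j + 1) * Real.pi / n))) :=
      fun j => f_eq S _
    rw [Finset.sum_congr rfl fun j _ => e j, Finset.sum_add_distrib, Finset.sum_const,
      Finset.card_range, nsmul_eq_mul, Finset.sum_comm]
    have h3 : ∑ a ∈ S, ∑ j ∈ range n, (-1 : ℝ) ^ above S a *
        (2 * Real.cos (a * ((2 * j + 1) * Real.pi / n))) = -(2 * n) := by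
      rw [Finset.sum_eq_single_of_mem n hnS]
      · rw [above_eq_zero hle]
        have h4 : ∀ j : ℕ, Real.cos (n * ((2 * j + 1) * Real.pi / n)) = -1 := by
          intro j
          have h5 : (n : ℝ) * ((2 * j + 1) * Real.pi / n) = Real.pi + j * (2 * Real.pi) := by
            field_simp
            ring
          rw [h5, Real.cos_add_nat_mul_two_pi, Real.cos_pi]
        simp only [h4, Finset.sum_const, Finset.card_range, nsmul_eq_mul]
        ring
      · intro a ha han
        rw [← Finset.mul_sum, ← Finset.mul_sum,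
          cf_sum_zero (hpos a ha) (lt_of_le_of_ne (hle a ha) han), mul_zero, mul_zero]
    rw [h3]
    ring
  have h3 : (-1 : ℝ) ^ S.card ≤ 1 := by
    rcases neg_one_pow_eq_or ℝ S.card with h | h
    · rw [h]
    · rw [h]; norm_num
  rw [h2] at h1
  nlinarith

/-- `Δ` as a polynomial of the cosine -/
noncomputable def cfq (S : Finset ℕ) : ℝ[X] :=
  C ((-1 : ℝ) ^ S.card) +
    ∑ a ∈ S, C ((-1 : ℝ) ^ above S a * 2) * Polynomial.Chebyshev.T ℝ a

theorem cfq_eval (S : Finset ℕ) (t : ℝ) : (cfq S).eval (Real.cos t) = f S t := by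
  rw [f_eq, cfq, Polynomial.eval_add, Polynomial.eval_C, Polynomial.eval_finsetSum]
  congr 1
  apply Finset.sum_congr rfl
  intro a _
  rw [Polynomial.eval_mul, Polynomial.eval_C, Polynomial.Chebyshev.T_real_cos]
  push_cast
  ring

theorem cfq_natDegree (S : Finset ℕ) : (cfq S).natDegree ≤ S.sup id := by
  unfold cfq
  refine (Polynomial.natDegree_add_le _ _).trans (max_le ?_ ?_)
  · rw [Polynomial.natDegree_C]
    exact Nat.zero_le _
  · refine Polynomial.natDegree_sum_le_of_forall_le _ _ fun a ha => ?_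
    refine (Polynomial.natDegree_C_mul_le _ _).trans ?_
    rw [Polynomial.Chebyshev.natDegree_T]
    simpa using Finset.le_sup (f := id) ha

theorem cf_monic (S : Finset ℕ) (hS : S.Nonempty) (hpos : ∀ a ∈ S, 0 < a) : (delta S).Monic := by
  set n : ℕ := S.sup id with hn
  have hle : ∀ a ∈ S, a ≤ n := fun a ha => Finset.le_sup (f := id) ha
  have hn0 : 0 < n := by
    obtain ⟨a, ha⟩ := hS
    exact lt_of_lt_of_le (hpos a ha) (hle a ha)
  have hnS : n ∈ S := by
    obtain ⟨x, hx, hx2⟩ := Finset.exists_mem_eq_sup S hS id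
    rw [hn, hx2]
    exact hx
  apply Polynomial.monic_of_natDegree_le_of_coeff_eq_one (n + n)
  · unfold delta
    rw [← hn]
    refine (Polynomial.natDegree_add_le _ _).trans (max_le ?_ ?_)
    · exact (Polynomial.natDegree_C_mul_X_pow_le _ _).trans (by omega)
    · refine Polynomial.natDegree_sum_le_of_forall_le _ _ fun a ha => ?_
      refine (Polynomial.natDegree_C_mul_le _ _).trans ?_
      refine (Polynomial.natDegree_add_le _ _).trans (max_le ?_ ?_)
      · rw [Polynomial.natDegree_X_pow]
        have := hle a ha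
        omega
      · rw [Polynomial.natDegree_X_pow]
        omega
  · unfold delta
    rw [← hn, Polynomial.coeff_add, Polynomial.finsetSum_coeff, Polynomial.coeff_C_mul,
      Polynomial.coeff_X_pow, if_neg (by omega), mul_zero, zero_add,
      Finset.sum_eq_single_of_mem n hnS]
    · rw [Polynomial.coeff_C_mul, Polynomial.coeff_add, Polynomial.coeff_X_pow,
        Polynomial.coeff_X_pow, if_pos rfl, if_neg (by omega), above_eq_zero hle]
      simp
    · intro a ha han
      have := hle a ha
      rw [Polynomial.coeff_C_mul, Polynomial.coeff_add, Polynomial.coeff_X_pow,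
        Polynomial.coeff_X_pow, if_neg (by omega), if_neg (by omega)]
      simp

end Pool.Agent.MPdfec22
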