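import Mathlib
open Polynomial
namespace Pool.Agent.MPdfec22

private theorem cube_step (ζ : ℂ) (hint : IsIntegral ℤ ζ) (E : ℤ[X]) (hE : E.Monic)
    (h : 1 ≤ (E.map (Int.castRingHom ℂ)).rootMultiplicity ζ) :
    ∃ E' : ℤ[X], E'.Monic ∧ E = minpoly ℤ ζ * E' ∧
      (E.map (Int.castRingHom ℂ)).rootMultiplicity ζ ≤
        (E'.map (Int.castRingHom ℂ)).rootMultiplicity ζ + 1 := by
  have hM : (minpoly ℤ ζ).Monic := minpoly.monic hint
  have hE0 : E.map (Int.castRingHom ℂ) ≠ 0 := (hE.map _).ne_zero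
  have hroot : (E.map (Int.castRingHom ℂ)).IsRoot ζ :=
    (rootMultiplicity_pos hE0).1 (by omega)
  have hae : aeval ζ E = 0 := by
    rw [aeval_def, algebraMap_int_eq, ← eval_map]
    exact hroot
  obtain ⟨E', hE'⟩ := minpoly.isIntegrallyClosed_dvd hint hae
  have hm' : E'.Monic := Monic.of_mul_monic_left hM (by rw [← hE']; exact hE)
  refine ⟨E', hm', hE', ?_⟩
  have hsep : ((minpoly ℤ ζ).map (Int.castRingHom ℂ)).Separable := by
    have h1 : minpoly ℚ ζ = (minpoly ℤ ζ).map (algebraMap ℤ ℚ) :=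
      minpoly.isIntegrallyClosed_eq_field_fractions' ℚ hint
    have h2 : (minpoly ℚ ζ).Separable :=
      (minpoly.irreducible (hint.tower_top (A := ℚ))).separable
    have h3 : ((minpoly ℚ ζ).map (algebraMap ℚ ℂ)).Separable := h2.map
    rw [h1, Polynomial.map_map] at h3
    have h4 : (algebraMap ℚ ℂ).comp (algebraMap ℤ ℚ) = Int.castRingHom ℂ := by
      ext
      simp
    rwa [h4] at h3
  have h5 := rootMultiplicity_le_one_of_separable hsep ζ
  have h6 : E.map (Int.castRingHom ℂ) =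
      (minpoly ℤ ζ).map (Int.castRingHom ℂ) * E'.map (Int.castRingHom ℂ) := by
    rw [← Polynomial.map_mul, ← hE']
  rw [h6, rootMultiplicity_mul (by rw [← h6]; exact hE0)]
  omega

/-- A monic integer polynomial with a complex root of multiplicity at least three is divisible by
the cube of a monic irreducible integer polynomial. (`M = minpoly ℤ ζ`;
`minpoly.isIntegrallyClosed_dvd`, separability of `minpoly ℚ ζ` = map of `M`; three times.) -/
theorem cube_dvd (D : ℤ[X]) (hD : D.Monic) (ζ : ℂ)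
    (h : 3 ≤ (D.map (Int.castRingHom ℂ)).rootMultiplicity ζ) :
    ∃ M : ℤ[X], M.Monic ∧ Irreducible M ∧ (M.map (Int.castRingHom ℂ)).IsRoot ζ ∧ M ^ 3 ∣ D := by
  have hD0 : D.map (Int.castRingHom ℂ) ≠ 0 := (hD.map _).ne_zero
  have hroot : (D.map (Int.castRingHom ℂ)).IsRoot ζ :=
    (rootMultiplicity_pos hD0).1 (by omega)
  have hint : IsIntegral ℤ ζ := by
    refine ⟨D, hD, ?_⟩
    rw [algebraMap_int_eq, ← eval_map]
    exact hroot
  obtain ⟨E1, m1, e1, r1⟩ := cube_step ζ hint D hD (by omega)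
  obtain ⟨E2, m2, e2, r2⟩ := cube_step ζ hint E1 m1 (by omega)
  obtain ⟨E3, m3, e3, r3⟩ := cube_step ζ hint E2 m2 (by omega)
  refine ⟨minpoly ℤ ζ, minpoly.monic hint, minpoly.irreducible hint, ?_, E3, ?_⟩
  · have h1 := minpoly.aeval ℤ ζ
    rw [aeval_def, algebraMap_int_eq, ← eval_map] at h1
    exact h1
  · rw [e1, e2, e3]
    ring

end Pool.Agent.MPdfec22
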