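import Mathlib

set_option autoImplicit false

open Polynomial
namespace Pool.Agent.MPdfec22

/-- the lift of a polynomial in `(z + 1/z)/2` -/
private noncomputable def H (n : ℕ) (q : ℝ[X]) : ℂ[X] :=
  ∑ i ∈ Finset.range (n + 1), C ((q.coeff i : ℝ) : ℂ) * X ^ (n - i) * (C (1 / 2 : ℂ) * (X ^ 2 + 1)) ^ i

private theorem H_eval (n : ℕ) (q : ℝ[X]) (hq : q.natDegree ≤ n) (s : ℝ) :
    (H n q).eval (Complex.exp (s * Complex.I)) =
      Complex.exp (s * Complex.I) ^ n * ((q.eval (Real.cos s) : ℝ) : ℂ) := by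
  obtain ⟨z, hz⟩ : ∃ z, z = Complex.exp (s * Complex.I) := ⟨_, rfl⟩
  have hz0 : z ≠ 0 := by rw [hz]; exact Complex.exp_ne_zero _
  have hc : (1 / 2 : ℂ) * (z ^ 2 + 1) = z * (Real.cos s : ℂ) := by
    rw [Complex.ofReal_cos, Complex.cos, hz]
    have h1 : Complex.exp (-(s : ℂ) * Complex.I) = (Complex.exp (s * Complex.I))⁻¹ := by
      rw [← Complex.exp_neg]; congr 1; ring
    rw [h1]
    have h2 := Complex.exp_ne_zero (s * Complex.I)
    field_simp
  rw [← hz]
  unfold H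
  rw [eval_finsetSum, eval_eq_sum_range' (Nat.lt_succ_of_le hq), Complex.ofReal_sum, Finset.mul_sum]
  refine Finset.sum_congr rfl fun i hi => ?_
  have hi' : i ≤ n := Nat.lt_succ_iff.1 (Finset.mem_range.1 hi)
  simp only [eval_mul, eval_pow, eval_C, eval_X, eval_add, eval_one]
  rw [hc, mul_pow]
  push_cast
  have h3 : z ^ n = z ^ (n - i) * z ^ i := by rw [← pow_add, Nat.sub_add_cancel hi']
  rw [h3]
  ring

/-- Multiplicities under `z ↦ (z + 1/z)/2`. Put `H n q = Σ_{i ≤ n} C (q_i) X^(n-i) ((X^2+1)/2)^i` over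
`ℂ`, so `(H n q)(z) = z^n q((z + 1/z)/2)` for `z ≠ 0`; `P = H n q` (they agree on the infinite unit
circle). With `q = (X - cos t)^e q1`, `e ≤ n`: `P = ((X - ζ)(X - conj ζ)/2)^e * H (n-e) q1`
(both sides agree for all `z ≠ 0`), `ζ = exp(i t)`, `ζ ≠ conj ζ`, `H (n-e) q1 (ζ) = ζ^(n-e) q1(cos t) ≠ 0`. -/
theorem mult_transfer (n : ℕ) (P : ℂ[X]) (q : ℝ[X]) (hq : q.natDegree ≤ n) (hq0 : q ≠ 0)
    (hP : ∀ t : ℝ, P.eval (Complex.exp (t * Complex.I)) =
      Complex.exp ((n * t : ℝ) * Complex.I) * ((q.eval (Real.cos t) : ℝ) : ℂ))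
    (t : ℝ) (ht : Real.sin t ≠ 0) :
    P.rootMultiplicity (Complex.exp (t * Complex.I)) = q.rootMultiplicity (Real.cos t) := by
  obtain ⟨e, he⟩ : ∃ e, e = q.rootMultiplicity (Real.cos t) := ⟨_, rfl⟩
  obtain ⟨q1, hq1, hnd⟩ := Polynomial.exists_eq_pow_rootMultiplicity_mul_and_not_dvd q hq0
    (Real.cos t)
  rw [← he] at hq1 ⊢
  have hq10 : q1 ≠ 0 := by
    rintro rfl
    exact hnd (dvd_zero _)
  have hdeg : q.natDegree = e + q1.natDegree := by
    rw [hq1, natDegree_mul (pow_ne_zero _ (X_sub_C_ne_zero _)) hq10, natDegree_pow,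
      natDegree_X_sub_C, mul_one]
  obtain ⟨ζ, hζ⟩ : ∃ z, z = Complex.exp (t * Complex.I) := ⟨_, rfl⟩
  obtain ⟨ζ', hζ'⟩ : ∃ z, z = Complex.exp (-t * Complex.I) := ⟨_, rfl⟩
  have hsum : ζ + ζ' = 2 * (Real.cos t : ℂ) := by
    rw [Complex.ofReal_cos, Complex.cos, hζ, hζ']; ring
  have hprod : ζ * ζ' = 1 := by
    rw [hζ, hζ', ← Complex.exp_add]
    have : (t : ℂ) * Complex.I + -t * Complex.I = 0 := by ring
    rw [this, Complex.exp_zero]
  have hne : ζ ≠ ζ' := by
    intro h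
    have h1 : ζ.im = Real.sin t := by rw [hζ, Complex.exp_ofReal_mul_I_im]
    have h2 : ζ'.im = - Real.sin t := by
      rw [hζ', ← Complex.ofReal_neg, Complex.exp_ofReal_mul_I_im, Real.sin_neg]
    rw [h, h2] at h1
    apply ht
    linarith
  have hPe : P = ((C (1 / 2 : ℂ) * (X - C ζ')) ^ e * H (n - e) q1) * (X - C ζ) ^ e := by
    refine Polynomial.eq_of_infinite_eval_eq _ _ ?_
    refine Set.infinite_of_injOn_mapsTo (f := fun s : ℝ => Complex.exp (s * Complex.I))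
      (s := Set.Icc 0 Real.pi) ?_ ?_ (Set.Icc_infinite Real.pi_pos)
    · intro x hx y hy hxy
      refine Real.injOn_cos hx hy ?_
      have := congrArg Complex.re hxy
      simp only at this
      rwa [Complex.exp_ofReal_mul_I_re, Complex.exp_ofReal_mul_I_re] at this
    · intro s _
      show P.eval (Complex.exp (s * Complex.I)) = _
      rw [hP s]
      obtain ⟨z, hz⟩ : ∃ z, z = Complex.exp (s * Complex.I) := ⟨_, rfl⟩
      have e1 : Complex.exp ((n * s : ℝ) * Complex.I) = z ^ n := by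
        rw [hz, ← Complex.exp_nat_mul]; congr 1; push_cast; ring
      have e2 := H_eval (n - e) q1 (by omega) s
      have hc : z + z⁻¹ = 2 * (Real.cos s : ℂ) := by
        rw [Complex.ofReal_cos, Complex.cos, hz, ← Complex.exp_neg]
        have : -((s : ℂ) * Complex.I) = -s * Complex.I := by ring
        rw [this]; ring
      have hz0 : z ≠ 0 := by rw [hz]; exact Complex.exp_ne_zero _
      rw [eval_mul, eval_mul, e2, e1, ← hz, hq1]
      simp only [eval_mul, eval_pow, eval_sub, eval_X, eval_C, ← hz]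
      push_cast
      have h5 : (1 / 2 * (z - ζ')) * (z - ζ) = z * ((Real.cos s : ℂ) - (Real.cos t : ℂ)) := by
        have h6 : z * z + 1 = z * (2 * (Real.cos s : ℂ)) := by
          rw [← hc]; field_simp
        linear_combination (-z / 2) * hsum + (1 / 2 : ℂ) * hprod + (1 / 2 : ℂ) * h6
      have h7 : z ^ n = z ^ e * z ^ (n - e) := by
        rw [← pow_add]; congr 1; omega
      rw [h7]
      have h8 : (1 / 2 * (z - ζ')) ^ e * (z - ζ) ^ e =
          z ^ e * ((Real.cos s : ℂ) - (Real.cos t : ℂ)) ^ e := by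
        rw [← mul_pow, h5, mul_pow]
      push_cast at h8 ⊢
      linear_combination (- z ^ (n - e) * ((q1.eval (Real.cos s) : ℝ) : ℂ)) * h8
  have hR : ((C (1 / 2 : ℂ) * (X - C ζ')) ^ e * H (n - e) q1).eval ζ ≠ 0 := by
    rw [eval_mul, hζ, H_eval (n - e) q1 (by omega) t, ← hζ]
    simp only [eval_pow, eval_mul, eval_sub, eval_X, eval_C]
    refine mul_ne_zero (pow_ne_zero _ (mul_ne_zero (by norm_num) (sub_ne_zero.2 hne)))
      (mul_ne_zero (pow_ne_zero _ ?_) ?_)
    · rw [hζ]; exact Complex.exp_ne_zero _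
    · intro h
      apply hnd
      rw [dvd_iff_isRoot]
      exact_mod_cast h
  have hR0 : (C (1 / 2 : ℂ) * (X - C ζ')) ^ e * H (n - e) q1 ≠ 0 := by
    intro h
    rw [h, eval_zero] at hR
    exact hR rfl
  rw [← hζ, hPe, rootMultiplicity_mul_X_sub_C_pow hR0, rootMultiplicity_eq_zero hR, zero_add]

end Pool.Agent.MPdfec22
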