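import Mathlib

/-!
# Multiplicities under `z ↦ (z + 1/z)/2`
-/

set_option autoImplicit false

open Polynomial

namespace Pool.Agent.MPdfec22

/-- the polynomial `z ^ m q((z + 1/z)/2)` -/
noncomputable def cf4H (m : ℕ) (q : ℝ[X]) : ℂ[X] :=
  ∑ i ∈ Finset.range (m + 1), C ((q.coeff i : ℝ) : ℂ) * X ^ (m - i) *
    (C (1 / 2) * (X ^ 2 + 1)) ^ i

theorem cf4_half (s : ℝ) : (1 / 2 : ℂ) * (Complex.exp (s * Complex.I) ^ 2 + 1) =
    Complex.exp (s * Complex.I) * ((Real.cos s : ℝ) : ℂ) := by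
  rw [Complex.ofReal_cos, Complex.cos, sq]
  have h : Complex.exp (s * Complex.I) * Complex.exp (-(s : ℂ) * Complex.I) = 1 := by
    rw [← Complex.exp_add]
    simp
  linear_combination (-1 / 2 : ℂ) * h

theorem cf4_exp (m : ℕ) (s : ℝ) : Complex.exp ((m * s : ℝ) * Complex.I) =
    Complex.exp (s * Complex.I) ^ m := by
  rw [← Complex.exp_nat_mul]
  congr 1
  push_cast
  ring

theorem cf4H_eval (m : ℕ) (q : ℝ[X]) (hq : q.natDegree ≤ m) (s : ℝ) :
    (cf4H m q).eval (Complex.exp (s * Complex.I)) =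
      Complex.exp (s * Complex.I) ^ m * ((q.eval (Real.cos s) : ℝ) : ℂ) := by
  rw [cf4H, eval_finsetSum, Polynomial.eval_eq_sum_range' (Nat.lt_succ_of_le hq),
    Complex.ofReal_sum, Finset.mul_sum]
  apply Finset.sum_congr rfl
  intro i hi
  have hi' : i ≤ m := Nat.lt_succ_iff.1 (Finset.mem_range.1 hi)
  simp only [eval_mul, eval_C, eval_pow, eval_X, eval_add, eval_one]
  rw [cf4_half, mul_pow, Complex.ofReal_mul, Complex.ofReal_pow]
  have h1 : Complex.exp (s * Complex.I) ^ m =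
      Complex.exp (s * Complex.I) ^ (m - i) * Complex.exp (s * Complex.I) ^ i := by
    rw [← pow_add, Nat.sub_add_cancel hi']
  rw [h1]
  ring

theorem cf4_infinite (A B : ℂ[X]) (h : ∀ s : ℝ, A.eval (Complex.exp (s * Complex.I)) =
    B.eval (Complex.exp (s * Complex.I))) : A = B := by
  apply Polynomial.eq_of_infinite_eval_eq
  have hinj : Set.InjOn (fun s : ℝ => Complex.exp (s * Complex.I)) (Set.Icc 0 1) := by
    intro s hs s' hs' hss
    have h1 := congrArg Complex.re hss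
    simp only [Complex.exp_ofReal_mul_I_re] at h1
    have hpi : (1 : ℝ) ≤ Real.pi := by linarith [Real.pi_gt_three]
    exact Real.injOn_cos ⟨hs.1, hs.2.trans hpi⟩ ⟨hs'.1, hs'.2.trans hpi⟩ h1
  refine ((Set.Icc_infinite (zero_lt_one' ℝ)).image hinj).mono ?_
  rintro _ ⟨s, -, rfl⟩
  exact h s

/-- Multiplicities under `z ↦ (z + 1/z)/2`. -/
theorem mult_transfer (n : ℕ) (P : ℂ[X]) (q : ℝ[X]) (hq : q.natDegree ≤ n) (hq0 : q ≠ 0)
    (hP : ∀ t : ℝ, P.eval (Complex.exp (t * Complex.I)) =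
      Complex.exp ((n * t : ℝ) * Complex.I) * ((q.eval (Real.cos t) : ℝ) : ℂ))
    (t : ℝ) (ht : Real.sin t ≠ 0) :
    P.rootMultiplicity (Complex.exp (t * Complex.I)) = q.rootMultiplicity (Real.cos t) := by
  set e := q.rootMultiplicity (Real.cos t) with he
  obtain ⟨q1, hq1, hnd⟩ := Polynomial.exists_eq_pow_rootMultiplicity_mul_and_not_dvd q hq0
    (Real.cos t)
  have hq1r : q1.eval (Real.cos t) ≠ 0 := by
    intro h
    exact hnd (Polynomial.dvd_iff_isRoot.2 h)
  have hq10 : q1 ≠ 0 := by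
    rintro rfl
    simp at hq1r
  have hdeg : q.natDegree = e + q1.natDegree := by
    conv_lhs => rw [hq1]
    rw [Polynomial.natDegree_mul (pow_ne_zero _ (Polynomial.X_sub_C_ne_zero _)) hq10,
      Polynomial.natDegree_pow, Polynomial.natDegree_X_sub_C, mul_one]
  have hen : e ≤ n := by omega
  have hq1d : q1.natDegree ≤ n - e := by omega
  set ζ := Complex.exp (t * Complex.I) with hζ
  set ζ' := Complex.exp (-(t : ℂ) * Complex.I) with hζ'
  have hzz : ζ * ζ' = 1 := by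
    rw [hζ, hζ', ← Complex.exp_add]
    simp
  have hcos : ζ + ζ' = 2 * ((Real.cos t : ℝ) : ℂ) := by
    rw [Complex.ofReal_cos, Complex.cos, hζ, hζ']
    ring
  have hne : ζ - ζ' ≠ 0 := by
    intro h
    apply ht
    have h1 : Complex.sin t = 0 := by
      rw [Complex.sin]
      rw [← hζ, ← hζ']
      have : ζ' - ζ = 0 := by linear_combination -h
      rw [this]
      simp
    rw [← Complex.ofReal_sin] at h1
    exact_mod_cast h1
  have hPR : P = ((C (1 / 2) * (X - C ζ')) ^ e * cf4H (n - e) q1) * (X - C ζ) ^ e := by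
    apply cf4_infinite
    intro s
    rw [hP, cf4_exp]
    conv_lhs => rw [hq1]
    simp only [eval_mul, eval_pow, eval_sub, eval_X, eval_C]
    rw [cf4H_eval _ _ hq1d]
    set z := Complex.exp (s * Complex.I) with hz
    have h1 : (1 / 2 : ℂ) * (z - ζ') * (z - ζ) = z * (((Real.cos s : ℝ) : ℂ) - ((Real.cos t : ℝ) : ℂ)) := by
      have h2 := cf4_half s
      rw [← hz] at h2
      linear_combination h2 + (1 / 2 : ℂ) * hzz - (1 / 2 : ℂ) * z * hcos
    have h3 : z ^ n = z ^ e * z ^ (n - e) := by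
      rw [← pow_add, Nat.add_sub_cancel' hen]
    rw [Complex.ofReal_mul, Complex.ofReal_pow, Complex.ofReal_sub, h3]
    calc z ^ e * z ^ (n - e) * ((((Real.cos s : ℝ) : ℂ) - ((Real.cos t : ℝ) : ℂ)) ^ e *
          ((q1.eval (Real.cos s) : ℝ) : ℂ))
        = (z * (((Real.cos s : ℝ) : ℂ) - ((Real.cos t : ℝ) : ℂ))) ^ e * (z ^ (n - e) *
          ((q1.eval (Real.cos s) : ℝ) : ℂ)) := by rw [mul_pow]; ring
      _ = ((1 / 2 : ℂ) * (z - ζ') * (z - ζ)) ^ e * (z ^ (n - e) *
          ((q1.eval (Real.cos s) : ℝ) : ℂ)) := by rw [h1]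
      _ = _ := by rw [mul_pow]; ring
  have hR : ((C (1 / 2) * (X - C ζ')) ^ e * cf4H (n - e) q1).eval ζ ≠ 0 := by
    simp only [eval_mul, eval_pow, eval_sub, eval_X, eval_C]
    rw [hζ, cf4H_eval _ _ hq1d, ← hζ]
    refine mul_ne_zero (pow_ne_zero _ (mul_ne_zero (by norm_num) hne)) (mul_ne_zero ?_ ?_)
    · exact pow_ne_zero _ (Complex.exp_ne_zero _)
    · exact_mod_cast hq1r
  have hR0 : ((C (1 / 2) * (X - C ζ')) ^ e * cf4H (n - e) q1) ≠ 0 := by
    intro h
    rw [h] at hR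
    simp at hR
  rw [hPR, Polynomial.rootMultiplicity_mul_X_sub_C_pow hR0, Polynomial.rootMultiplicity_eq_zero hR,
    zero_add]

end Pool.Agent.MPdfec22
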