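import Pool.Agent.MPdfec22.CF2

/-!
# Admissible polynomials modulo a prime

Let `(X d/dX - n)²` act on `P = X^n Δ(X)`: the monomial `X^(n ± n_j)` is multiplied by `n_j²`, the
monomial `X^n` by `0`. If all `n_j²` are congruent to the same `r ≠ 0` modulo `p` then the result is
`r (P ∓ X^n)`, and a polynomial whose cube divides `P` modulo `p` divides `X^n`.
-/

open Finset Polynomial

namespace Pool.Agent.MPdfec22

theorem cf_dvd_derivative {R : Type} [CommRing R] {m D : R[X]} {j : ℕ} (h : m ^ (j + 1) ∣ D) :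
    m ^ j ∣ derivative D := by
  obtain ⟨r, rfl⟩ := h
  rw [Polynomial.derivative_mul, Polynomial.derivative_pow]
  refine dvd_add ?_ ?_
  · refine Dvd.dvd.mul_right (Dvd.dvd.mul_right ?_ _) _
    exact Dvd.intro_left _ rfl
  · exact Dvd.dvd.mul_right (pow_dvd_pow m (by omega)) _

/-- the operator `(X d/dX - n)²` -/
noncomputable def cfT {R : Type} [CommRing R] (n : R) (Q : R[X]) : R[X] :=
  X ^ 2 * derivative (derivative Q) + X * derivative Q - C (2 * n) * (X * derivative Q) +
    C (n ^ 2) * Q

theorem cfT_add {R : Type} [CommRing R] (n : R) (P Q : R[X]) :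
    cfT n (P + Q) = cfT n P + cfT n Q := by
  unfold cfT
  simp only [Polynomial.derivative_add]
  ring

theorem cfT_C_mul {R : Type} [CommRing R] (n c : R) (P : R[X]) :
    cfT n (C c * P) = C c * cfT n P := by
  unfold cfT
  simp only [Polynomial.derivative_C_mul]
  ring

theorem cfT_sum {R : Type} [CommRing R] (n : R) (S : Finset ℕ) (F : ℕ → R[X]) :
    cfT n (∑ a ∈ S, F a) = ∑ a ∈ S, cfT n (F a) := by
  induction S using Finset.induction_on with
  | empty => simp [cfT]
  | insert a S ha ih => rw [Finset.sum_insert ha, Finset.sum_insert ha, cfT_add, ih]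

theorem cfT_X_pow {R : Type} [CommRing R] (n : R) (e : ℕ) :
    cfT n (X ^ e : R[X]) = C (((e : R) - n) ^ 2) * X ^ e := by
  unfold cfT
  rcases e with _ | _ | e
  · simp
  · simp only [zero_add, pow_one, Polynomial.derivative_X, Polynomial.derivative_one, Nat.cast_one,
      map_pow, map_sub, map_one, map_mul, map_ofNat]
    ring
  · have h1 : derivative (X ^ (e + 1 + 1) : R[X]) = C ((e : R) + 2) * X ^ (e + 1) := by
      rw [Polynomial.derivative_X_pow]
      congr 2
      push_cast
      ring
    have h2 : derivative (X ^ (e + 1) : R[X]) = C ((e : R) + 1) * X ^ e := by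
      rw [Polynomial.derivative_X_pow]
      congr 2
      push_cast
      ring
    rw [h1, Polynomial.derivative_C_mul, h2]
    simp only [Nat.cast_add, Nat.cast_one, map_pow, map_sub, map_one, map_mul, map_add, map_natCast,
      map_ofNat]
    ring

/-- If all `n_j²` are congruent to `r ≠ 0` modulo `p` then `Δ` is cube-free modulo `p`. -/
theorem cf_res (S : Finset ℕ) (hS : S.Nonempty) (hpos : ∀ a ∈ S, 0 < a) (p : ℕ) [Fact p.Prime]
    (r : ZMod p) (hr : r ≠ 0) (hsq : ∀ a ∈ S, (a : ZMod p) ^ 2 = r)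
    (m : (ZMod p)[X]) (hm : m ^ 3 ∣ (delta S).map (Int.castRingHom (ZMod p))) :
    m.natDegree = 0 := by
  set n : ℕ := S.sup id with hn
  have hle : ∀ a ∈ S, a ≤ n := fun a ha => Finset.le_sup (f := id) ha
  have hnS : n ∈ S := by
    obtain ⟨x, hx, hx2⟩ := Finset.exists_mem_eq_sup S hS id
    rw [hn, hx2]
    exact hx
  have hn0 : 0 < n := hpos n hnS
  set D := (delta S).map (Int.castRingHom (ZMod p)) with hD
  have hDe : D = C ((-1 : ZMod p) ^ S.card) * X ^ n +
      ∑ a ∈ S, C ((-1 : ZMod p) ^ above S a) * (X ^ (n + a) + X ^ (n - a)) := by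
    rw [hD]
    unfold delta
    rw [← hn]
    simp [Polynomial.map_sum]
  have hT : cfT (n : ZMod p) D = C r * (D - C ((-1 : ZMod p) ^ S.card) * X ^ n) := by
    have h1 : D - C ((-1 : ZMod p) ^ S.card) * X ^ n =
        ∑ a ∈ S, C ((-1 : ZMod p) ^ above S a) * (X ^ (n + a) + X ^ (n - a)) := by
      rw [hDe]
      ring
    rw [h1, hDe, cfT_add, cfT_C_mul, cfT_X_pow, sub_self, cfT_sum, Finset.mul_sum]
    simp only [ne_eq, OfNat.ofNat_ne_zero, not_false_eq_true, zero_pow, map_zero, zero_mul,
      mul_zero, zero_add]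
    refine Finset.sum_congr rfl fun a ha => ?_
    rw [cfT_C_mul, cfT_add, cfT_X_pow, cfT_X_pow, Nat.cast_add, Nat.cast_sub (hle a ha),
      add_sub_cancel_left, show ((n : ZMod p) - a - n) = -a by ring, neg_sq, hsq a ha]
    ring
  have hd0 : m ∣ D := (dvd_pow_self m (by norm_num)).trans hm
  have hd1 : m ^ 2 ∣ derivative D := cf_dvd_derivative hm
  have hd1' : m ∣ derivative D := (dvd_pow_self m (by norm_num)).trans hd1
  have hd2 : m ∣ derivative (derivative D) := by
    have := cf_dvd_derivative (j := 1) hd1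
    rwa [pow_one] at this
  have hd3 : m ∣ cfT (n : ZMod p) D := by
    unfold cfT
    exact dvd_add (dvd_sub (dvd_add (hd2.mul_left _) (hd1'.mul_left _))
      ((hd1'.mul_left _).mul_left _)) (hd0.mul_left _)
  have h1 : m ∣ X ^ n := by
    rw [hT] at hd3
    have h2 : m ∣ C r * D - C r * (D - C ((-1 : ZMod p) ^ S.card) * X ^ n) :=
      dvd_sub (hd0.mul_left _) hd3
    have h3 : C r * D - C r * (D - C ((-1 : ZMod p) ^ S.card) * X ^ n) =
        C (r * (-1 : ZMod p) ^ S.card) * X ^ n := by
      rw [Polynomial.C_mul]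
      ring
    rw [h3] at h2
    have hu : IsUnit (C (r * (-1 : ZMod p) ^ S.card) : (ZMod p)[X]) :=
      Polynomial.isUnit_C.2 ((isUnit_iff_ne_zero.2 hr).mul ((isUnit_one.neg).pow _))
    exact (hu.dvd_mul_left).1 h2
  have h0 : D.coeff 0 ≠ 0 := by
    rw [hDe, Polynomial.coeff_add, Polynomial.finsetSum_coeff, Polynomial.coeff_C_mul,
      Polynomial.coeff_X_pow, if_neg (by omega), mul_zero, zero_add,
      Finset.sum_eq_single_of_mem n hnS]
    · rw [Polynomial.coeff_C_mul, Polynomial.coeff_add, Polynomial.coeff_X_pow,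
        Polynomial.coeff_X_pow, if_neg (by omega), if_pos (by omega), zero_add, mul_one]
      exact ((isUnit_one.neg).pow _).ne_zero
    · intro a ha han
      have := hle a ha
      rw [Polynomial.coeff_C_mul, Polynomial.coeff_add, Polynomial.coeff_X_pow,
        Polynomial.coeff_X_pow, if_neg (by omega), if_neg (by omega), add_zero, mul_zero]
  obtain ⟨i, -, hi⟩ := (dvd_prime_pow Polynomial.prime_X _).1 h1
  rcases Nat.eq_zero_or_pos i with rfl | hi0
  · rw [pow_zero, associated_one_iff_isUnit] at hi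
    exact Polynomial.natDegree_eq_zero_of_isUnit hi
  · exfalso
    apply h0
    have h2 : (X : (ZMod p)[X]) ∣ D :=
      ((dvd_pow_self X hi0.ne').trans hi.symm.dvd).trans hd0
    rwa [Polynomial.X_dvd_iff] at h2

end Pool.Agent.MPdfec22
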