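import Pool.Agent.MPdfec22.CF1
import Pool.Agent.MPdfec22.CF3
import Pool.Agent.MPdfec22.CF4
import Pool.Agent.MPdfec22.CF5

/-!
# Cube-free admissible polynomials have a simple root on the unit circle
-/

open Finset Polynomial

namespace Pool.Agent.MPdfec22

/-- A root on the unit circle of odd multiplicity. -/
theorem cf_odd_root (S : Finset ℕ) (hS : S.Nonempty) (hpos : ∀ a ∈ S, 0 < a) :
    ∃ t : ℝ, Real.sin t ≠ 0 ∧ Odd ((cfq S).rootMultiplicity (Real.cos t)) ∧
      ((delta S).map (Int.castRingHom ℂ)).rootMultiplicity (Complex.exp (t * Complex.I)) =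
        (cfq S).rootMultiplicity (Real.cos t) := by
  obtain ⟨t0, ht0⟩ := cf_neg S hS hpos
  have h1 : (cfq S).eval 1 = 1 := by
    rw [← Real.cos_zero, cfq_eval]
    simp [f, alt]
  have h2 : (cfq S).eval (Real.cos t0) < 0 := by rwa [cfq_eval]
  have h3 : Real.cos t0 < 1 := by
    refine lt_of_le_of_ne (Real.cos_le_one _) fun h => ?_
    rw [h, h1] at h2
    linarith
  obtain ⟨x, hx1, hx2, hx3⟩ := odd_root (cfq S) h3 h2 (by rw [h1]; norm_num)
  have hx4 : -1 < x := (Real.neg_one_le_cos t0).trans_lt hx1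
  have hc : Real.cos (Real.arccos x) = x := Real.cos_arccos hx4.le hx2.le
  have hs : Real.sin (Real.arccos x) ≠ 0 := by
    rw [Real.sin_arccos]
    exact (Real.sqrt_pos.2 (by nlinarith)).ne'
  refine ⟨Real.arccos x, hs, by rwa [hc], ?_⟩
  have hq0 : cfq S ≠ 0 := by
    intro h
    rw [h, Polynomial.eval_zero] at h1
    norm_num at h1
  exact mult_transfer (S.sup id) _ (cfq S) (cfq_natDegree S) hq0 (fun t => by
    rw [eval_delta, cfq_eval]) _ hs

/-- the zero is simple if its multiplicity is one -/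
theorem cf_alt_ne (S : Finset ℕ) (t : ℝ) (hs : Real.sin t ≠ 0)
    (h : (cfq S).rootMultiplicity (Real.cos t) = 1) :
    f S t = 0 ∧ alt S (fun a => a * Real.sin (a * t)) ≠ 0 := by
  have hq0 : cfq S ≠ 0 := by
    intro h0
    rw [h0] at h
    simp at h
  have hr : (cfq S).IsRoot (Real.cos t) := (Polynomial.rootMultiplicity_pos hq0).1 (by omega)
  have hd : (derivative (cfq S)).eval (Real.cos t) ≠ 0 := by
    intro h0
    have := (Polynomial.one_lt_rootMultiplicity_iff_isRoot hq0).2 ⟨hr, h0⟩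
    omega
  refine ⟨by rw [← cfq_eval]; exact hr, ?_⟩
  intro h0
  have h1 := hasDerivAt_f S t
  rw [h0, mul_zero] at h1
  have h2 : HasDerivAt (fun s : ℝ => (cfq S).eval (Real.cos s))
      ((derivative (cfq S)).eval (Real.cos t) * (-Real.sin t)) t :=
    ((cfq S).hasDerivAt (Real.cos t)).comp t (Real.hasDerivAt_cos t)
  have h3 : (fun s : ℝ => (cfq S).eval (Real.cos s)) = f S := funext fun s => cfq_eval S s
  rw [h3] at h2
  have h4 := h1.unique h2
  have h5 := mul_eq_zero.1 h4.symm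
  rcases h5 with h5 | h5
  · exact hd h5
  · exact hs (neg_eq_zero.1 h5)

/-- The main alternative. -/
theorem cf_main (S : Finset ℕ) (hS : S.Nonempty) (hpos : ∀ a ∈ S, 0 < a) :
    (∃ t : ℝ, f S t = 0 ∧ alt S (fun a => a * Real.sin (a * t)) ≠ 0) ∨
      ∃ M : ℤ[X], M.Monic ∧ Irreducible M ∧
        (∃ ζ : ℂ, ‖ζ‖ = 1 ∧ (M.map (Int.castRingHom ℂ)).IsRoot ζ) ∧ M ^ 3 ∣ delta S := by
  obtain ⟨t, hs, hodd, he⟩ := cf_odd_root S hS hpos
  by_cases h1 : (cfq S).rootMultiplicity (Real.cos t) = 1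
  · exact Or.inl ⟨t, cf_alt_ne S t hs h1⟩
  · right
    obtain ⟨M, hM1, hM2, hM3, hM4⟩ := cube_dvd (delta S) (cf_monic S hS hpos)
      (Complex.exp (t * Complex.I)) (by
        rw [he]
        obtain ⟨j, hj⟩ := hodd
        omega)
    exact ⟨M, hM1, hM2, ⟨_, Complex.norm_exp_ofReal_mul_I t, hM3⟩, hM4⟩

theorem cf_unit_odd (S : Finset ℕ) (hS : S.Nonempty) (hpos : ∀ a ∈ S, 0 < a) :
    ∃ ζ : ℂ, ‖ζ‖ = 1 ∧ Odd (((delta S).map (Int.castRingHom ℂ)).rootMultiplicity ζ) := by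
  obtain ⟨t, -, hodd, he⟩ := cf_odd_root S hS hpos
  exact ⟨_, Complex.norm_exp_ofReal_mul_I t, by rwa [he]⟩

/-- Cube-free modulo a prime. -/
theorem cf_mod (S : Finset ℕ) (hS : S.Nonempty) (hpos : ∀ a ∈ S, 0 < a) (p : ℕ) (hp : p.Prime)
    (h : ∀ m : (ZMod p)[X], m ^ 3 ∣ (delta S).map (Int.castRingHom (ZMod p)) → m.natDegree = 0) :
    ∃ t : ℝ, f S t = 0 ∧ alt S (fun a => a * Real.sin (a * t)) ≠ 0 := by
  haveI : Fact p.Prime := ⟨hp⟩
  rcases cf_main S hS hpos with h1 | ⟨M, hM1, hM2, ⟨ζ, -, hζ⟩, hM4⟩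
  · exact h1
  · exfalso
    have h2 := h (M.map (Int.castRingHom (ZMod p))) (by
      rw [← Polynomial.map_pow]
      exact Polynomial.map_dvd _ hM4)
    rw [hM1.natDegree_map] at h2
    have h3 : M = 1 := hM1.natDegree_eq_zero.1 h2
    exact hM2.not_isUnit (by rw [h3]; exact isUnit_one)

/-- all `n_j²` congruent to `r` -/
theorem cf_res_zero (S : Finset ℕ) (hS : S.Nonempty) (hpos : ∀ a ∈ S, 0 < a) (p : ℕ)
    (hp : p.Prime) (r : ZMod p) (hr : r ≠ 0) (hsq : ∀ a ∈ S, (a : ZMod p) ^ 2 = r) :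
    ∃ t : ℝ, f S t = 0 ∧ alt S (fun a => a * Real.sin (a * t)) ≠ 0 := by
  have : Fact p.Prime := ⟨hp⟩
  exact cf_mod S hS hpos p hp fun m hm => cf_res S hS hpos p r hr hsq m hm

theorem cf_above_image (c : ℕ) (hc : 0 < c) (S : Finset ℕ) (b : ℕ) :
    above (S.image (fun x => c * x)) (c * b) = above S b := by
  unfold above
  rw [Finset.filter_image, Finset.card_image_of_injective _
    (fun x y h => Nat.eq_of_mul_eq_mul_left hc h)]
  congr 1
  ext x
  simp only [Finset.mem_filter, Nat.mul_lt_mul_left hc]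

theorem cf_alt_image (c : ℕ) (hc : 0 < c) (S : Finset ℕ) (F : ℕ → ℝ) :
    alt (S.image (fun x => c * x)) F = alt S (fun x => F (c * x)) := by
  unfold alt
  rw [Finset.sum_image (fun x _ y _ h => Nat.eq_of_mul_eq_mul_left hc h)]
  refine Finset.sum_congr rfl fun x _ => ?_
  rw [cf_above_image c hc]

/-- all `(n_j / c)²` congruent to `r` -/
theorem cf_scaled (S : Finset ℕ) (hS : S.Nonempty) (hpos : ∀ a ∈ S, 0 < a) (c : ℕ) (p : ℕ)
    (hp : p.Prime) (r : ZMod p) (hr : r ≠ 0)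
    (hsq : ∀ a ∈ S, ∃ b : ℕ, a = c * b ∧ (b : ZMod p) ^ 2 = r) : HasSimpleUnitRoot (delta S) := by
  have hc : 0 < c := by
    obtain ⟨a, ha⟩ := hS
    obtain ⟨b, hb, -⟩ := hsq a ha
    have := hpos a ha
    rw [hb] at this
    exact Nat.pos_of_mul_pos_right this
  set S0 : Finset ℕ := S.image (fun a => a / c) with hS0
  have h0 : ∀ b ∈ S0, 0 < b := by
    intro b hb
    obtain ⟨a, ha, rfl⟩ := Finset.mem_image.1 hb
    obtain ⟨b, hb, -⟩ := hsq a ha
    have := hpos a ha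
    rw [hb] at this ⊢
    rw [Nat.mul_div_cancel_left _ hc]
    exact Nat.pos_of_mul_pos_left this
  have h1 : ∀ b ∈ S0, (b : ZMod p) ^ 2 = r := by
    intro b hb
    obtain ⟨a, ha, rfl⟩ := Finset.mem_image.1 hb
    obtain ⟨b, rfl, hb⟩ := hsq a ha
    rwa [Nat.mul_div_cancel_left _ hc]
  have h2 : S = S0.image (fun x => c * x) := by
    rw [hS0, Finset.image_image]
    ext a
    rw [Finset.mem_image]
    constructor
    · intro ha
      obtain ⟨b, rfl, -⟩ := hsq a ha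
      exact ⟨c * b, ha, by simp [Nat.mul_div_cancel_left _ hc]⟩
    · rintro ⟨x, hx, rfl⟩
      obtain ⟨b, rfl, -⟩ := hsq x hx
      simpa [Nat.mul_div_cancel_left _ hc] using hx
  obtain ⟨t, ht1, ht2⟩ := cf_res_zero S0 (hS.image _) h0 p hp r hr h1
  have hc' : (c : ℝ) ≠ 0 := by exact_mod_cast hc.ne'
  have h3 : ∀ x : ℕ, ((c * x : ℕ) : ℝ) * (t / c) = x * t := by
    intro x
    push_cast
    field_simp
  apply simple_of_zero S (t / c)
  · rw [h2]
    unfold f at ht1 ⊢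
    rw [cf_alt_image c hc]
    simp only [h3]
    exact ht1
  · rw [h2, cf_alt_image c hc]
    simp only [h3]
    have h4 : alt S0 (fun x => ((c * x : ℕ) : ℝ) * Real.sin (x * t)) =
        c * alt S0 (fun x => x * Real.sin (x * t)) := by
      unfold alt
      rw [Finset.mul_sum]
      refine Finset.sum_congr rfl fun x _ => ?_
      push_cast
      ring
    rw [h4]
    exact mul_ne_zero hc' ht2

/-- no `n_j` divisible by three -/
theorem cf_three (S : Finset ℕ) (hS : S.Nonempty) (hpos : ∀ a ∈ S, 0 < a)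
    (h : ∀ a ∈ S, ¬ 3 ∣ a) : HasSimpleUnitRoot (delta S) := by
  refine cf_scaled S hS hpos 1 3 Nat.prime_three 1 one_ne_zero fun a ha => ⟨a, by ring, ?_⟩
  have h1 : (a : ZMod 3) ≠ 0 := fun h0 => h a ha ((ZMod.natCast_eq_zero_iff a 3).1 h0)
  have h2 : ∀ x : ZMod 3, x ≠ 0 → x ^ 2 = 1 := by decide
  exact h2 _ h1

/-- all `n_j` odd -/
theorem cf_odd (S : Finset ℕ) (hS : S.Nonempty) (h : ∀ a ∈ S, Odd a) :
    HasSimpleUnitRoot (delta S) := by
  refine cf_scaled S hS (fun a ha => (h a ha).pos) 1 2 Nat.prime_two 1 one_ne_zero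
    fun a ha => ⟨a, by ring, ?_⟩
  rw [(ZMod.natCast_eq_one_iff_odd).2 (h a ha), one_pow]

/-- at most two `n_j` -/
theorem cf_two (S : Finset ℕ) (hS : S.Nonempty) (hpos : ∀ a ∈ S, 0 < a) (h : S.card ≤ 2) :
    HasSimpleUnitRoot (delta S) := by
  have h1 : 0 < S.card := hS.card_pos
  rcases (show S.card = 1 ∨ S.card = 2 by omega) with h2 | h2
  · obtain ⟨a, rfl⟩ := Finset.card_eq_one.1 h2
    refine cf_scaled _ hS hpos a 2 Nat.prime_two 1 one_ne_zero fun x hx => ⟨1, ?_, by simp⟩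
    rw [Finset.mem_singleton.1 hx, mul_one]
  · obtain ⟨a, b, hab, rfl⟩ := Finset.card_eq_two.1 h2
    wlog hlt : a < b generalizing a b
    · rw [Finset.pair_comm]
      exact this b a hab.symm (by rwa [Finset.pair_comm]) (by rwa [Finset.pair_comm])
        (by rwa [Finset.pair_comm]) (by rwa [Finset.pair_comm]) (by rwa [Finset.pair_comm]) (by omega)
    have ha0 : 0 < a := hpos a (by simp)
    obtain ⟨a', b', hco, ha, hb⟩ := Nat.exists_coprime a b
    set c := Nat.gcd a b with hc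
    have hc0 : 0 < c := Nat.gcd_pos_of_pos_left _ ha0
    have ha0' : 0 < a' := by
      rw [ha] at ha0
      exact Nat.pos_of_mul_pos_right ha0
    have hlt' : a' < b' := by
      rw [ha, hb] at hlt
      exact Nat.lt_of_mul_lt_mul_right hlt
    have hN : b' ^ 2 - a' ^ 2 ≠ 1 := by
      have : (a' + 1) ^ 2 ≤ b' ^ 2 := Nat.pow_le_pow_left hlt' 2
      have h5 : (a' + 1) ^ 2 = a' ^ 2 + 2 * a' + 1 := by ring
      omega
    have hp := Nat.minFac_prime hN
    set p := Nat.minFac (b' ^ 2 - a' ^ 2) with hpd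
    have hdvd : p ∣ b' ^ 2 - a' ^ 2 := Nat.minFac_dvd _
    have hle : a' ^ 2 ≤ b' ^ 2 := Nat.pow_le_pow_left hlt'.le 2
    have heq : (b' : ZMod p) ^ 2 = (a' : ZMod p) ^ 2 := by
      have h6 := (ZMod.natCast_eq_zero_iff (b' ^ 2 - a' ^ 2) p).2 hdvd
      rw [Nat.cast_sub hle, Nat.cast_pow, Nat.cast_pow] at h6
      exact sub_eq_zero.1 h6
    have hFact : Fact p.Prime := ⟨hp⟩
    refine cf_scaled _ hS hpos c p hp ((a' : ZMod p) ^ 2) ?_ ?_
    · intro h0
      have h7 : (a' : ZMod p) = 0 := pow_eq_zero_iff (two_ne_zero) |>.1 h0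
      have h8 : p ∣ a' := (ZMod.natCast_eq_zero_iff a' p).1 h7
      have h9 : (b' : ZMod p) = 0 := by
        rw [h7] at heq
        exact pow_eq_zero_iff (two_ne_zero) |>.1 (by rw [heq]; simp)
      have h10 : p ∣ b' := (ZMod.natCast_eq_zero_iff b' p).1 h9
      have h11 := Nat.dvd_gcd h8 h10
      rw [hco.gcd_eq_one] at h11
      exact hp.one_lt.ne' (Nat.dvd_one.1 h11)
    · intro x hx
      rcases Finset.mem_insert.1 hx with rfl | hx
      · exact ⟨a', by rw [mul_comm]; exact ha, rfl⟩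
      · rw [Finset.mem_singleton.1 hx]
        exact ⟨b', by rw [mul_comm]; exact hb, heq⟩

end Pool.Agent.MPdfec22
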