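import Pool.Agent.MPdfec22.Basic

open Finset Polynomial

namespace Pool.Agent.MPdfec22

theorem above_pred (S : Finset ℕ) (a : ℕ) :
    above S a = above S (a + 1) + (if a + 1 ∈ S then 1 else 0) := by
  unfold above
  by_cases h : a + 1 ∈ S
  · rw [if_pos h]
    have : S.filter (fun b => a < b) = insert (a + 1) (S.filter (fun b => a + 1 < b)) := by
      ext b
      simp only [Finset.mem_filter, Finset.mem_insert]
      constructor
      · rintro ⟨hb, hab⟩
        by_cases hb1 : b = a + 1
        · exact Or.inl hb1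
        · exact Or.inr ⟨hb, by omega⟩
      · rintro (rfl | ⟨hb, hab⟩)
        · exact ⟨h, by omega⟩
        · exact ⟨hb, by omega⟩
    rw [this, Finset.card_insert_of_notMem]
    simp
  · rw [if_neg h, add_zero]
    congr 1
    ext b
    simp only [Finset.mem_filter]
    constructor
    · rintro ⟨hb, hab⟩
      refine ⟨hb, ?_⟩
      by_contra hc
      have : b = a + 1 := by omega
      exact h (this ▸ hb)
    · rintro ⟨hb, hab⟩
      exact ⟨hb, by omega⟩

theorem parity_mem (S : Finset ℕ) (a : ℕ) :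
    a + 1 ∈ S ↔ ¬ (Odd (above S a) ↔ Odd (above S (a + 1))) := by
  rw [above_pred S a]
  by_cases h : a + 1 ∈ S
  · rw [if_pos h]
    simp only [h, true_iff]
    rw [Nat.odd_add_one]
    tauto
  · rw [if_neg h, add_zero]
    simp [h]

/-- the increments of `1 - cos (2 a / n)` -/
noncomputable def w (n : ℕ) (j : ℕ) : ℝ :=
  (1 - Real.cos (2 * ((j + 1 : ℕ) : ℝ) / n)) - (1 - Real.cos (2 * (j : ℝ) / n))

theorem w_eq (n : ℕ) (j : ℕ) :
    w n j = 2 * Real.sin (1 / n) * Real.sin ((2 * j + 1) / n) := by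
  unfold w
  have h := Real.cos_sub_cos (2 * (j : ℝ) / n) (2 * ((j + 1 : ℕ) : ℝ) / n)
  have e1 : (2 * (j : ℝ) / n + 2 * ((j + 1 : ℕ) : ℝ) / n) / 2 = (2 * j + 1) / n := by
    push_cast
    ring
  have e2 : (2 * (j : ℝ) / n - 2 * ((j + 1 : ℕ) : ℝ) / n) / 2 = -(1 / n) := by
    push_cast
    ring
  rw [e1, e2, Real.sin_neg] at h
  linarith

theorem sin_inv_nonneg (n : ℕ) : 0 ≤ Real.sin (1 / n) ∧ Real.sin (1 / n) ≤ 1 / n := by
  rcases Nat.eq_zero_or_pos n with rfl | hn
  · simp
  · have hn1 : (1 : ℝ) ≤ n := by exact_mod_cast hn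
    have h1 : (0 : ℝ) < 1 / n := by positivity
    have h2 : (1 : ℝ) / n ≤ 1 := by
      rw [div_le_one (by linarith)]
      exact hn1
    have hpi := Real.pi_gt_three
    exact ⟨(Real.sin_pos_of_pos_of_lt_pi h1 (by linarith)).le, Real.sin_le h1.le⟩

theorem w_nonneg {n j : ℕ} (hj : j < n) : 0 ≤ w n j := by
  rw [w_eq]
  have hn : (0 : ℝ) < n := by
    have : 0 < n := by omega
    exact_mod_cast this
  have h1 := (sin_inv_nonneg n).1
  have hj' : (j : ℝ) + 1 ≤ n := by exact_mod_cast hj
  have h2 : 0 < (2 * (j : ℝ) + 1) / n := by positivity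
  have h3 : (2 * (j : ℝ) + 1) / n ≤ 2 := by
    rw [div_le_iff₀ hn]
    linarith
  have hpi := Real.pi_gt_three
  have h4 := Real.sin_pos_of_pos_of_lt_pi h2 (by linarith)
  positivity

theorem w_le (n j : ℕ) : w n j ≤ 2 / n := by
  rw [w_eq]
  obtain ⟨h1, h2⟩ := sin_inv_nonneg n
  have h3 : Real.sin ((2 * (j : ℝ) + 1) / n) ≤ 1 := Real.sin_le_one _
  have h4 : 2 * Real.sin (1 / n) * Real.sin ((2 * j + 1) / n) ≤ 2 * Real.sin (1 / n) * 1 :=
    mul_le_mul_of_nonneg_left h3 (by positivity)
  have h5 : (2 : ℝ) / n = 2 * (1 / n) := by ring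
  rw [h5]
  linarith

theorem sum_w {n : ℕ} (hn : 0 < n) : ∑ j ∈ range n, w n j = 1 - Real.cos 2 := by
  unfold w
  have h := Finset.sum_range_sub (fun j : ℕ => 1 - Real.cos (2 * (j : ℝ) / n)) n
  rw [h]
  have hn' : (n : ℝ) ≠ 0 := by positivity
  have e : 2 * (n : ℝ) / n = 2 := by field_simp
  rw [e]
  simp

theorem sum_w_le (n m : ℕ) : ∑ j ∈ range m, w n j = 1 - Real.cos (2 * m / n) := by
  unfold w
  have h := Finset.sum_range_sub (fun j : ℕ => 1 - Real.cos (2 * (j : ℝ) / n)) m
  rw [h]
  simp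

theorem alt_eq_sum_w (n : ℕ) (S : Finset ℕ) (hS : ∀ a ∈ S, a ≤ n) :
    alt S (fun a => 1 - Real.cos (2 * a / n)) =
      ∑ j ∈ (range n).filter (fun j => Odd (above S j)), w n j := by
  rw [alt_telescope (fun a : ℕ => 1 - Real.cos (2 * (a : ℝ) / n)) (by simp) S n hS]
  rfl

theorem alt_id_eq_card (n : ℕ) (S : Finset ℕ) (hS : ∀ a ∈ S, a ≤ n) :
    alt S (fun a => (a : ℝ)) = ((range n).filter (fun j => Odd (above S j))).card := by
  rw [alt_telescope (fun a : ℕ => (a : ℝ)) (by simp) S n hS]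
  simp

theorem above_last {S : Finset ℕ} {m : ℕ} (hS : ∀ a ∈ S, a ≤ m + 1) (hm : m + 1 ∈ S) :
    above S m = 1 := by
  rw [above_pred, if_pos hm, above_eq_zero hS]

theorem filter_succ {S : Finset ℕ} {m : ℕ} (hS : ∀ a ∈ S, a ≤ m + 1) (hm : m + 1 ∈ S) :
    (range (m + 1)).filter (fun j => Odd (above S j)) =
      insert m ((range m).filter (fun j => Odd (above S j))) := by
  rw [Finset.range_add_one, Finset.filter_insert, if_pos]
  rw [above_last hS hm]
  exact odd_one

theorem inj_aux {m : ℕ} {S S' : Finset ℕ} (hS : S ⊆ Icc 1 (m + 1)) (hS' : S' ⊆ Icc 1 (m + 1))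
    (hm : m + 1 ∈ S) (hm' : m + 1 ∈ S')
    (h : (range m).filter (fun j => Odd (above S j)) =
      (range m).filter (fun j => Odd (above S' j))) : S = S' := by
  have hle : ∀ a ∈ S, a ≤ m + 1 := fun a ha => (Finset.mem_Icc.1 (hS ha)).2
  have hle' : ∀ a ∈ S', a ≤ m + 1 := fun a ha => (Finset.mem_Icc.1 (hS' ha)).2
  have key : ∀ j, Odd (above S j) ↔ Odd (above S' j) := by
    intro j
    rcases lt_trichotomy j m with hj | hj | hj
    · have h1 := Finset.ext_iff.1 h j
      simp only [Finset.mem_filter, Finset.mem_range, hj, true_and] at h1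
      exact h1
    · subst hj
      rw [above_last hle hm, above_last hle' hm']
    · rw [above_eq_zero (fun b hb => (hle b hb).trans (by omega)),
        above_eq_zero (fun b hb => (hle' b hb).trans (by omega))]
  ext a
  rcases Nat.eq_zero_or_pos a with rfl | ha
  · constructor
    · intro h0
      have := (Finset.mem_Icc.1 (hS h0)).1
      omega
    · intro h0
      have := (Finset.mem_Icc.1 (hS' h0)).1
      omega
  · obtain ⟨b, rfl⟩ : ∃ b, a = b + 1 := ⟨a - 1, by omega⟩
    rw [parity_mem S b, parity_mem S' b, key b, key (b + 1)]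

theorem one_add_exp_neg_le (x : ℝ) :
    1 + Real.exp (-x) ≤ 2 * Real.exp (-x / 2 + x ^ 2 / 8) := by
  have h := Real.cosh_le_exp_half_sq (x / 2)
  have h1 : 1 + Real.exp (-x) = 2 * (Real.exp (-x / 2) * Real.cosh (x / 2)) := by
    rw [Real.cosh_eq]
    have e1 : Real.exp (-x / 2) * Real.exp (x / 2) = 1 := by
      rw [← Real.exp_add]
      simp [neg_div]
    have e2 : Real.exp (-x / 2) * Real.exp (-(x / 2)) = Real.exp (-x) := by
      rw [← Real.exp_add]
      congr 1
      ring
    linear_combination -e1 - e2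
  have h2 : Real.exp (-x / 2 + x ^ 2 / 8) = Real.exp (-x / 2) * Real.exp ((x / 2) ^ 2 / 2) := by
    rw [← Real.exp_add]
    congr 1
    ring
  rw [h1, h2]
  have h3 := mul_le_mul_of_nonneg_left h (Real.exp_pos (-x / 2)).le
  linarith

open Classical in
theorem card_bad (m : ℕ) :
    ((((Icc 1 (m + 1)).powerset.filter (fun S => m + 1 ∈ S ∧
      alt S (fun a => 1 - Real.cos (2 * a / ((m + 1 : ℕ) : ℝ))) ≤ 1 / 2)).card : ℕ) : ℝ) ≤
      2 ^ m * Real.exp (-((m + 1 : ℕ) : ℝ) / 33) := by
  set n : ℕ := m + 1 with hn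
  have hn0 : 0 < n := by omega
  have hnr : (0 : ℝ) < n := by exact_mod_cast hn0
  set lam : ℝ := 0.29 * n with hlam
  have hlam0 : 0 < lam := by rw [hlam]; positivity
  -- first step: the injection
  have h1 : ((Icc 1 n).powerset.filter (fun S => n ∈ S ∧
      alt S (fun a => 1 - Real.cos (2 * a / (n : ℝ))) ≤ 1 / 2)).card ≤
      ((range m).powerset.filter (fun B => w n m + ∑ j ∈ B, w n j ≤ 1 / 2)).card := by
    apply Finset.card_le_card_of_injOn (fun S => (range m).filter (fun j => Odd (above S j)))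
    · intro S hS
      rw [Finset.mem_coe, Finset.mem_filter, Finset.mem_powerset] at hS
      obtain ⟨hS, hnS, halt⟩ := hS
      rw [Finset.mem_coe, Finset.mem_filter, Finset.mem_powerset]
      refine ⟨Finset.filter_subset _ _, ?_⟩
      have hle : ∀ a ∈ S, a ≤ n := fun a ha => (Finset.mem_Icc.1 (hS ha)).2
      rw [alt_eq_sum_w n S hle, filter_succ hle hnS, Finset.sum_insert (by simp)] at halt
      exact halt
    · intro S hS S' hS' h
      rw [Finset.mem_coe, Finset.mem_filter, Finset.mem_powerset] at hS hS'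
      exact inj_aux hS.1 hS'.1 hS.2.1 hS'.2.1 h
  -- second step: the exponential moment
  have h2 : ((((range m).powerset.filter (fun B => w n m + ∑ j ∈ B, w n j ≤ 1 / 2)).card : ℕ) : ℝ) ≤
      Real.exp (lam * (1 / 2 - w n m)) * ∏ j ∈ range m, (1 + Real.exp (-(lam * w n j))) := by
    rw [Finset.prod_one_add, Finset.mul_sum, Finset.card_eq_sum_ones]
    push_cast
    calc ∑ B ∈ (range m).powerset.filter (fun B => w n m + ∑ j ∈ B, w n j ≤ 1 / 2), (1 : ℝ)
        ≤ ∑ B ∈ (range m).powerset.filter (fun B => w n m + ∑ j ∈ B, w n j ≤ 1 / 2),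
          Real.exp (lam * (1 / 2 - w n m)) * ∏ j ∈ B, Real.exp (-(lam * w n j)) := by
          apply Finset.sum_le_sum
          intro B hB
          rw [Finset.mem_filter] at hB
          rw [← Real.exp_sum, ← Real.exp_add, Finset.sum_neg_distrib, ← Finset.mul_sum]
          rw [Real.one_le_exp_iff]
          have := mul_nonneg hlam0.le (sub_nonneg.2 hB.2)
          linarith
      _ ≤ ∑ B ∈ (range m).powerset,
          Real.exp (lam * (1 / 2 - w n m)) * ∏ j ∈ B, Real.exp (-(lam * w n j)) := by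
          apply Finset.sum_le_sum_of_subset_of_nonneg (Finset.filter_subset _ _)
          intro B _ _
          apply mul_nonneg (Real.exp_pos _).le
          apply Finset.prod_nonneg
          intro j _
          exact (Real.exp_pos _).le
  have h3 : ∏ j ∈ range m, (1 + Real.exp (-(lam * w n j))) ≤
      2 ^ m * Real.exp (∑ j ∈ range m, (-(lam * w n j) / 2 + (lam * w n j) ^ 2 / 8)) := by
    rw [Real.exp_sum]
    have : (2 : ℝ) ^ m = ∏ j ∈ range m, (2 : ℝ) := by simp
    rw [this, ← Finset.prod_mul_distrib]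
    apply Finset.prod_le_prod
    · intro j _
      positivity
    · intro j _
      exact one_add_exp_neg_le _
  have h4 : ∑ j ∈ range m, (-(lam * w n j) / 2 + (lam * w n j) ^ 2 / 8) ≤
      ∑ j ∈ range m, (-(lam * w n j) / 2 + 0.0725 * lam * w n j) := by
    apply Finset.sum_le_sum
    intro j hj
    have hjn : j < n := by
      have := Finset.mem_range.1 hj
      omega
    have hw0 := w_nonneg hjn
    have hw1 := w_le n j
    have e : lam * w n j ≤ 0.58 := by
      have := mul_le_mul_of_nonneg_left hw1 hlam0.le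
      have e2 : lam * (2 / n) = 0.58 := by
        rw [hlam]
        field_simp
        norm_num
      linarith
    have e3 : 0 ≤ lam * w n j := mul_nonneg hlam0.le hw0
    have e4 : (lam * w n j) ^ 2 ≤ 0.58 * (lam * w n j) := by nlinarith
    linarith
  have h5 : ∑ j ∈ range m, (-(lam * w n j) / 2 + 0.0725 * lam * w n j) =
      -0.4275 * lam * (1 - Real.cos 2 - w n m) := by
    have e := sum_w hn0
    rw [hn, Finset.sum_range_succ, ← hn] at e
    have e2 : ∑ j ∈ range m, w n j = 1 - Real.cos 2 - w n m := by linarith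
    rw [← e2, Finset.mul_sum]
    apply Finset.sum_congr rfl
    intro j _
    ring
  have hw0 : 0 ≤ w n m := w_nonneg (by omega)
  have hc := cos_two_bounds.2
  calc ((((Icc 1 n).powerset.filter (fun S => n ∈ S ∧
      alt S (fun a => 1 - Real.cos (2 * a / (n : ℝ))) ≤ 1 / 2)).card : ℕ) : ℝ)
      ≤ ((((range m).powerset.filter (fun B => w n m + ∑ j ∈ B, w n j ≤ 1 / 2)).card : ℕ) : ℝ) := by
        exact_mod_cast h1
    _ ≤ Real.exp (lam * (1 / 2 - w n m)) * ∏ j ∈ range m, (1 + Real.exp (-(lam * w n j))) := h2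
    _ ≤ Real.exp (lam * (1 / 2 - w n m)) *
        (2 ^ m * Real.exp (-0.4275 * lam * (1 - Real.cos 2 - w n m))) := by
        apply mul_le_mul_of_nonneg_left _ (Real.exp_pos _).le
        refine h3.trans ?_
        apply mul_le_mul_of_nonneg_left _ (by positivity)
        rw [Real.exp_le_exp]
        linarith
    _ = 2 ^ m * Real.exp (lam * (1 / 2 - w n m) + -0.4275 * lam * (1 - Real.cos 2 - w n m)) := by
        rw [Real.exp_add]
        ring
    _ ≤ 2 ^ m * Real.exp (-(n : ℝ) / 33) := by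
        apply mul_le_mul_of_nonneg_left _ (by positivity)
        rw [Real.exp_le_exp]
        have e1 : lam * (1 / 2 - w n m) + -0.4275 * lam * (1 - Real.cos 2 - w n m) =
            lam * (1 / 2 - 0.4275 * (1 - Real.cos 2) - 0.5725 * w n m) := by ring
        rw [e1]
        have e2 : 1 / 2 - 0.4275 * (1 - Real.cos 2) - 0.5725 * w n m ≤ -0.10486 := by
          linarith
        have e3 := mul_le_mul_of_nonneg_left e2 hlam0.le
        have e4 : lam * -0.10486 ≤ -(n : ℝ) / 33 := by
          rw [hlam]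
          linarith
        linarith

end Pool.Agent.MPdfec22
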