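import Mathlib

open Finset Polynomial

namespace Pool.Agent.MPdfec22

/-- Number of elements of `S` above `a`. -/
def above (S : Finset ℕ) (a : ℕ) : ℕ := (S.filter (fun b => a < b)).card

/-- `T ^ n * Δ(T)` for the admissible Laurent polynomial of `S`, with `n = max S`. -/
noncomputable def delta (S : Finset ℕ) : ℤ[X] :=
  C ((-1) ^ S.card) * X ^ S.sup id +
    ∑ a ∈ S, C ((-1) ^ above S a) * (X ^ (S.sup id + a) + X ^ (S.sup id - a))

/-- `P` has a root of multiplicity one on the unit circle. -/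
def HasSimpleUnitRoot (P : ℤ[X]) : Prop :=
  ∃ ζ : ℂ, ‖ζ‖ = 1 ∧ (P.map (Int.castRingHom ℂ)).rootMultiplicity ζ = 1

end Pool.Agent.MPdfec22
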