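import Pool.Agent.MPdfec22.Count

open Finset Polynomial

namespace Pool.Agent.MPdfec22

/-- exchange inequality -/
theorem exchange (A B : Finset ℕ) (v : ℕ → ℝ) (c : ℝ) (k : ℕ)
    (hA : ∀ j ∈ A, j ∉ B → v j ≤ c) (hB : ∀ j ∈ B, j ∉ A → c ≤ v j)
    (hc : 0 ≤ c) (hcard : A.card + k ≤ B.card) :
    ∑ j ∈ A, v j + k * c ≤ ∑ j ∈ B, v j := by
  have h1 : ∑ j ∈ A, v j = ∑ j ∈ A ∩ B, v j + ∑ j ∈ A \ B, v j := by
    rw [add_comm, ← Finset.sum_union]
    · congr 1
      ext x
      simp only [Finset.mem_union, Finset.mem_sdiff, Finset.mem_inter]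
      tauto
    · rw [Finset.disjoint_left]
      intro x hx hx2
      simp only [Finset.mem_sdiff, Finset.mem_inter] at hx hx2
      exact hx.2 hx2.2
  have h2 : ∑ j ∈ B, v j = ∑ j ∈ A ∩ B, v j + ∑ j ∈ B \ A, v j := by
    rw [add_comm, ← Finset.sum_union]
    · congr 1
      ext x
      simp only [Finset.mem_union, Finset.mem_sdiff, Finset.mem_inter]
      tauto
    · rw [Finset.disjoint_left]
      intro x hx hx2
      simp only [Finset.mem_sdiff, Finset.mem_inter] at hx hx2
      exact hx.2 hx2.1
  have h3 : ∑ j ∈ A \ B, v j ≤ (A \ B).card * c := by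
    rw [← nsmul_eq_mul]
    apply Finset.sum_le_card_nsmul
    intro j hj
    rw [Finset.mem_sdiff] at hj
    exact hA j hj.1 hj.2
  have h4 : (B \ A).card * c ≤ ∑ j ∈ B \ A, v j := by
    rw [← nsmul_eq_mul]
    apply Finset.card_nsmul_le_sum
    intro j hj
    rw [Finset.mem_sdiff] at hj
    exact hB j hj.1 hj.2
  have h5 : (A \ B).card + (A ∩ B).card = A.card := Finset.card_sdiff_add_card_inter A B
  have h6 : (B \ A).card + (B ∩ A).card = B.card := Finset.card_sdiff_add_card_inter B A
  rw [Finset.inter_comm B A] at h6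
  have h7 : (A \ B).card + k ≤ (B \ A).card := by omega
  have h8 : (((A \ B).card : ℕ) : ℝ) + k ≤ ((B \ A).card : ℕ) := by exact_mod_cast h7
  have h9 := mul_le_mul_of_nonneg_right h8 hc
  rw [h1, h2]
  linarith

/-- `sin y ≥ sin x` for `x ≤ y ≤ 2` and `0 ≤ x ≤ π - 2`. -/
theorem sin_lower {x y : ℝ} (h0 : 0 ≤ x) (hx : x ≤ Real.pi - 2) (hxy : x ≤ y) (hy : y ≤ 2) :
    Real.sin x ≤ Real.sin y := by
  have hpi := Real.pi_gt_three
  have hpi2 := Real.pi_lt_four
  rcases le_or_gt y (Real.pi / 2) with h | h
  · exact Real.sin_le_sin_of_le_of_le_pi_div_two (by linarith) h hxy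
  · rw [← Real.sin_pi_sub y]
    exact Real.sin_le_sin_of_le_of_le_pi_div_two (by linarith) (by linarith) (by linarith)

theorem sum_large (n : ℕ) (hn : 0 < n) (B : Finset ℕ) (hB : B ⊆ range n)
    (hL : Real.pi / 6 * n < B.card) : 1 / 2 < ∑ j ∈ B, w n j := by
  have hnr : (0 : ℝ) < n := by exact_mod_cast hn
  have hn1 : (1 : ℝ) ≤ n := by exact_mod_cast hn
  have hpi := Real.pi_gt_three
  have hpi4 := Real.pi_lt_d2
  set x : ℝ := Real.pi / 6 * n with hx
  have hx0 : 0 < x := by rw [hx]; positivity
  obtain ⟨M, hM⟩ : ∃ M, M = ⌊x⌋₊ := ⟨_, rfl⟩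
  have hM1 : (M : ℝ) ≤ x := by rw [hM]; exact Nat.floor_le hx0.le
  have hM2 : x < M + 1 := by rw [hM]; exact Nat.lt_floor_add_one x
  have hMB : M + 1 ≤ B.card := by
    have : (M : ℝ) < B.card := by linarith
    have : M < B.card := by exact_mod_cast this
    omega
  have hBn : B.card ≤ n := by
    have := Finset.card_le_card hB
    rwa [Finset.card_range] at this
  have hMn : M + 1 ≤ n := by omega
  have hMn' : (M : ℝ) + 1 ≤ n := by exact_mod_cast hMn
  set u : ℝ := 1 / n with hu
  have hu0 : 0 < u := by rw [hu]; positivity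
  have hnu : (n : ℝ) * u = 1 := by rw [hu]; field_simp
  obtain ⟨hs0, -⟩ := sin_inv_nonneg n
  rw [← hu] at hs0
  have hw : ∀ j : ℕ, w n j = 2 * Real.sin u * Real.sin ((2 * j + 1) * u) := by
    intro j
    rw [w_eq, hu]
    congr 2
    ring
  have hjB : ∀ j ∈ B, (2 * (j : ℝ) + 1) * u ≤ 2 := by
    intro j hj
    have h1 := Finset.mem_range.1 (hB hj)
    have h2 : (j : ℝ) + 1 ≤ n := by exact_mod_cast h1
    have h3 : (2 * (j : ℝ) + 1) * u ≤ (2 * n) * u := by
      apply mul_le_mul_of_nonneg_right _ hu0.le
      linarith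
    have h4 : (2 * (n : ℝ)) * u = 2 := by rw [mul_assoc, hnu, mul_one]
    linarith
  have hxu : x * u = Real.pi / 6 := by rw [hx, mul_assoc, hnu, mul_one]
  rcases le_or_gt ((2 * (M : ℝ) + 1) * u) (Real.pi - 2) with hcase | hcase
  · -- first case
    have key := exchange (range (M + 1)) B (w n) (2 * Real.sin u * Real.sin ((2 * M + 1) * u)) 0
      ?_ ?_ ?_ ?_
    · rw [sum_w_le] at key
      have hcos : Real.cos (2 * ((M + 1 : ℕ) : ℝ) / n) < 1 / 2 := by
        rw [← Real.cos_pi_div_three]
        apply Real.cos_lt_cos_of_nonneg_of_le_pi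
        · positivity
        · have : 2 * ((M + 1 : ℕ) : ℝ) / n ≤ 2 := by
            rw [div_le_iff₀ hnr]
            push_cast
            linarith
          linarith
        · rw [lt_div_iff₀ hnr]
          push_cast
          have : Real.pi / 3 * n = 2 * x := by rw [hx]; ring
          linarith
      simp only [Nat.cast_zero, zero_mul, add_zero] at key
      linarith
    · intro j hj _
      rw [hw]
      apply mul_le_mul_of_nonneg_left _ (by positivity)
      have h1 := Finset.mem_range.1 hj
      have h2 : (j : ℝ) ≤ M := by exact_mod_cast (by omega : j ≤ M)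
      apply Real.sin_le_sin_of_le_of_le_pi_div_two
      · have : 0 ≤ (2 * (j : ℝ) + 1) * u := by positivity
        linarith
      · linarith
      · apply mul_le_mul_of_nonneg_right _ hu0.le
        linarith
    · intro j hj hjA
      rw [hw]
      apply mul_le_mul_of_nonneg_left _ (by positivity)
      have h1 : M + 1 ≤ j := by
        by_contra hc
        exact hjA (Finset.mem_range.2 (by omega))
      have h2 : (M : ℝ) + 1 ≤ j := by exact_mod_cast h1
      apply sin_lower (by positivity) hcase _ (hjB j hj)
      apply mul_le_mul_of_nonneg_right _ hu0.le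
      linarith
    · have h1 : 0 ≤ Real.sin ((2 * (M : ℝ) + 1) * u) := by
        apply Real.sin_nonneg_of_nonneg_of_le_pi (by positivity)
        linarith
      positivity
    · rw [Finset.card_range]
      omega
  · -- second case
    have key := exchange (range M) B (w n) (2 * Real.sin u * Real.sin 2) 1 ?_ ?_ ?_ ?_
    · rw [sum_w_le] at key
      have hsin2 := sin_two_lower
      have e1 : 2 * (M : ℝ) / n = 2 * M * u := by rw [hu]; ring
      rw [e1] at key
      have e2 : Real.cos (2 * M * u) ≤ Real.cos (Real.pi - (2 + u)) := by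
        apply Real.cos_le_cos_of_nonneg_of_le_pi
        · have hu1 : u ≤ 1 := by
            rw [hu, div_le_one hnr]
            exact hn1
          linarith
        · have : 2 * (M : ℝ) * u ≤ 2 * x * u := by
            apply mul_le_mul_of_nonneg_right _ hu0.le
            linarith
          have h2 : 2 * x * u = Real.pi / 3 := by rw [mul_assoc, hxu]; ring
          linarith
        · have : (2 * (M : ℝ) + 1) * u = 2 * M * u + u := by ring
          linarith
      rw [Real.cos_pi_sub, Real.cos_add] at e2
      have e3 : Real.cos (2 - u) = Real.cos 2 * Real.cos u + Real.sin 2 * Real.sin u :=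
        Real.cos_sub 2 u
      have e4 : Real.cos 2 ≤ Real.cos (2 - u) := by
        apply Real.cos_le_cos_of_nonneg_of_le_pi
        · have hu1 : u ≤ 1 := by
            rw [hu, div_le_one hnr]
            exact hn1
          linarith
        · linarith
        · linarith
      have e5 := cos_two_bounds.1
      push_cast at key
      linarith
    · intro j hj _
      rw [hw]
      apply mul_le_mul_of_nonneg_left _ (by positivity)
      have h1 := Finset.mem_range.1 hj
      have h2 : (j : ℝ) + 1 ≤ M := by exact_mod_cast h1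
      have h3 : (2 * (j : ℝ) + 1) * u ≤ (2 * x) * u := by
        apply mul_le_mul_of_nonneg_right _ hu0.le
        linarith
      have h4 : 2 * x * u = Real.pi / 3 := by rw [mul_assoc, hxu]; ring
      rw [← Real.sin_pi_sub 2]
      apply Real.sin_le_sin_of_le_of_le_pi_div_two
      · have : 0 ≤ (2 * (j : ℝ) + 1) * u := by positivity
        linarith
      · linarith
      · linarith
    · intro j hj hjA
      rw [hw]
      apply mul_le_mul_of_nonneg_left _ (by positivity)
      have h1 : M ≤ j := by
        by_contra hc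
        exact hjA (Finset.mem_range.2 (by omega))
      have h2 : (M : ℝ) ≤ j := by exact_mod_cast h1
      have h3 : Real.pi - 2 ≤ (2 * (j : ℝ) + 1) * u := by
        have : (2 * (M : ℝ) + 1) * u ≤ (2 * (j : ℝ) + 1) * u := by
          apply mul_le_mul_of_nonneg_right _ hu0.le
          linarith
        linarith
      rw [← Real.sin_pi_sub 2]
      exact sin_lower (by linarith) le_rfl h3 (hjB j hj)
    · have := sin_two_lower
      positivity
    · rw [Finset.card_range]
      exact hMB

end Pool.Agent.MPdfec22
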